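import Pool.Agent.H64.CC.Weil

/-!
# Varieties fibred over a curve: definitions
-/

set_option autoImplicit false

namespace Pool.Agent.H64.FT

open Pool.Agent.H64.CC

variable {K : Type} [Field K] [CharZero K]

/-- the sums of compositions `X → S → X` of correspondences, of degree `0`, with varieties `S` which
have the property `P` -/
def Through (W : Weil K) {n : ℕ} (P : W.Var n → Prop) (X : W.Var n) : Submodule ℚ (W.Hom X X) :=
  Submodule.span ℚ {f | ∃ (S : W.Var n) (r : ℤ), P S ∧
    ∃ h ∈ W.cyc X S r, ∃ g ∈ W.cyc S X (-r), f = W.comp g h}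

/-- the transposition of the endomorphisms of `H(X)` for the Poincaré duality; the transposes of
correspondences are correspondences -/
structure Duality (W : Weil K) where
  t : ∀ {n : ℕ} (X : W.Var n), W.Hom X X → W.Hom X X
  lin : ∀ {n : ℕ} (X : W.Var n), IsLinearMap K (t X)
  anti : ∀ {n : ℕ} (X : W.Var n) (f g : W.Hom X X), t X (W.comp g f) = W.comp (t X f) (t X g)
  one : ∀ {n : ℕ} (X : W.Var n), t X (W.id X) = W.id X
  pj : ∀ {n : ℕ} (X : W.Var n), ∀ i ≤ 2 * W.dim X, t X (W.pj X i) = W.pj X (2 * W.dim X - i)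
  mem : ∀ {n : ℕ} (X : W.Var n) (s : ℤ), ∀ f ∈ W.cyc X X s, t X f ∈ W.cyc X X s
  invol : ∀ {n : ℕ} (X : W.Var n) (s : ℤ), ∀ f ∈ W.cyc X X s, t X (t X f) = f

/-- `φ` is the functional on `H(X)` given by the intersection numbers with a curve on `X`: they are
rational for divisors, and for a divisor `v` the map `x ↦ φ(x) v` is the correspondence given by the
product of the curve and the divisor -/
def IsCurve (W : Weil K) {n : ℕ} (X : W.Var n) (φ : W.H X) : Prop :=
  ∀ v ∈ W.alg X 1, (∃ q : ℚ, φ ⬝ᵥ v = (q : K)) ∧ Matrix.vecMulVec v φ ∈ W.cyc X X 0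

/-- known theorems -/
structure Known (W : Weil K) (D : Duality W) : Prop where
  /-- the Künneth projectors in the degrees `0` and `1` are algebraic -/
  low : ∀ {n : ℕ} (X : W.Var n), W.pj X 0 ∈ W.cyc X X 0 ∧ W.pj X 1 ∈ W.cyc X X 0
  /-- the Künneth projectors of the varieties of dimension at most `2` are algebraic -/
  surfaces : ∀ {n : ℕ} (S : W.Var n), W.dim S ≤ 2 → W.C S
  /-- homological and numerical equivalence of divisors coincide (Matsusaka) -/
  divisors : ∀ {n : ℕ} (X : W.Var n), ∀ v ∈ W.alg X 1, v ≠ 0 → ∃ φ, IsCurve W X φ ∧ φ ⬝ᵥ v ≠ 0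
  /-- for a surface `S` the projector onto the part of `H(S)` generated by the classes of divisors
  and by the `Hⁱ(S)`, `i ≠ 2`, factors through varieties of dimension at most `1` (Murre) -/
  murre : ∀ {n : ℕ} (S : W.Var n), W.dim S = 2 →
    ∃ e ∈ Through W (fun T => W.dim T ≤ 1) S, D.t S e = e ∧
    (∀ i, i ≠ 2 → W.comp e (W.pj S i) = W.pj S i) ∧ (∀ v ∈ W.alg S 1, W.ap e v = v) ∧
    ∀ v, W.InH S 2 v → W.ap e v ∈ Submodule.span K (W.alg S 1 : Set (W.H S))

/-- The data of the fibrations over curves, for a Weil cohomology `W`: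

* `Fib X Y`, where `X` is a variety over `F n` and `Y` is a variety over `F (n + 1)`: the morphisms
  `f` from `X` to a curve `C` with geometric generic fibre `Y`, with a non-empty affine open subset
  `U` of `C` over which `f` is smooth (`F (n + 1)` is identified with the algebraic closure of the
  function field of `C`);
* `res`: the restriction `H(X) → H(Y)`;
* `mon`: the monodromy group of `f` over `U`, acting on `H(Y)` (for `ℓ`-adic cohomology the image of
  the fundamental group of `U`; for crystalline cohomology the Tannakian monodromy group of the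
  overconvergent isocrystal `H(Y)`, with `K` large);
* `vert`: the classes on `X` which come from the fibres outside `U`, that is, the kernel of the
  restriction from `X` to the inverse image of `U`;
* `gys`: the image of the Gysin map `H(X₀) → H(X)` for a smooth fibre `X₀`;
* `Models S`, for a variety `S` over `F (n + 1)`: for every curve over whose function field `S` is
  defined, and for some finite covering of it, `S` is the geometric generic fibre of a smooth
  projective variety over this covering. -/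
structure Fibrations (W : Weil K) where
  Fib : ∀ {n : ℕ}, W.Var n → W.Var (n + 1) → Type
  res : ∀ {n : ℕ} {X : W.Var n} {Y : W.Var (n + 1)}, Fib X Y → W.Hom X Y
  mon : ∀ {n : ℕ} {X : W.Var n} {Y : W.Var (n + 1)}, Fib X Y → Set (W.Hom Y Y)
  vert : ∀ {n : ℕ} {X : W.Var n} {Y : W.Var (n + 1)}, Fib X Y → Submodule K (W.H X)
  gys : ∀ {n : ℕ} {X : W.Var n} {Y : W.Var (n + 1)}, Fib X Y → Submodule K (W.H X)
  Models : ∀ {n : ℕ}, W.Var (n + 1) → Prop

/-- The general properties of a fibration `f` over a curve: the restriction preserves the degree and is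
injective in degree `0`; the monodromy group preserves the degree, the Poincaré duality and the
classes of cycles; the classes in the image of the restriction are fixed -/
structure Fibrations.Basic {W : Weil K} (𝓕 : Fibrations W) (D : Duality W) {n : ℕ} {X : W.Var n}
    {Y : W.Var (n + 1)} (f : 𝓕.Fib X Y) : Prop where
  dim_eq : W.dim X = W.dim Y + 1
  res_deg : W.HasDeg 0 (𝓕.res f)
  res_zero : ∀ x, W.InH X 0 x → W.ap (𝓕.res f) x = 0 → x = 0
  mon_deg : ∀ g ∈ 𝓕.mon f, W.HasDeg 0 g
  mon_dual : ∀ g ∈ 𝓕.mon f, W.comp (D.t Y g) g = W.id Y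
  mon_alg : ∀ g ∈ 𝓕.mon f, ∀ r : ℤ, ∀ v ∈ W.alg Y r, W.ap g v ∈ W.alg Y r
  fixed : ∀ g ∈ 𝓕.mon f, W.comp g (𝓕.res f) = 𝓕.res f

/-- The classes from the fibres outside `U` are `0` in degree at most `1`, and in degree `2` they are
generated by the classes of the components of these fibres; in degree `3` they come from the first
cohomology groups of smooth models of these components. If `d = dim X ≥ 4`, the radical of the form
`x L ^ (d - 3) y` on them is the part of degree `3` of `gys`, by the relative hard Lefschetz theorem,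
and by the complete reducibility theorem of Poincaré there is a correspondence which factors through
curves and is the identity on them modulo `gys` -/
structure Fibrations.Vertical {W : Weil K} (𝓕 : Fibrations W) {n : ℕ} {X : W.Var n}
    {Y : W.Var (n + 1)} (f : 𝓕.Fib X Y) : Prop where
  low : ∀ v ∈ 𝓕.vert f, ∀ i ≤ 1, W.InH X i v → v = 0
  two : ∀ v ∈ 𝓕.vert f, W.InH X 2 v → v ∈ Submodule.span K (W.alg X 1 : Set (W.H X))
  three : 4 ≤ W.dim X → ∃ θ ∈ Through W (fun T => W.dim T ≤ 1) X, ∀ v ∈ 𝓕.vert f,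
    W.InH X 3 v → v - W.ap θ v ∈ 𝓕.gys f

/-- The endomorphism `G` of `H(X)` is compatible with the endomorphism `g` of `H(Y)` which commutes
with the monodromy group: it is compatible with the restriction; by the Leray spectral sequence over
`U` it acts on the kernel of the restriction in degree `i + 1`, modulo `vert`, as a constant `c`, if
`g` is equal to `c` on `Hⁱ(Y)`, and then it is also equal to `c` on `gys` in degree `i + 2` -/
def Fibrations.Compatible {W : Weil K} (𝓕 : Fibrations W) {n : ℕ} {X : W.Var n}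
    {Y : W.Var (n + 1)} (f : 𝓕.Fib X Y) (G : W.Hom X X) (g : W.Hom Y Y) : Prop :=
  W.comp (𝓕.res f) G = W.comp g (𝓕.res f) ∧
    ∀ (c : K) (i : ℕ), W.comp g (W.pj Y i) = c • W.pj Y i →
      (∀ x, W.InH X (i + 1) x → W.ap (𝓕.res f) x = 0 → W.ap G x - c • x ∈ 𝓕.vert f) ∧
      ∀ x, W.InH X (i + 2) x → x ∈ 𝓕.gys f → W.ap G x = c • x

/-- The theory of fibrations over curves: the properties `Basic` and `Vertical`, and
* the varieties of dimension at most `2` have models, by the resolution of singularities in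
  dimension `3` (Cossart and Piltant);
* spreading out: a correspondence `e` on `Y` which is fixed by the monodromy group and factors
  through varieties `S` with the property `P`, which have models, is defined over the function field
  of `C`, and its closure `F` in the fibre product of `X` with itself over `C` factors through smooth
  projective varieties `Z` fibred over curves with geometric generic fibres `S`. The transpose of the
  closure is the closure of the transpose. -/
structure Fibrations.Theory {W : Weil K} (𝓕 : Fibrations W) (D : Duality W) : Prop where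
  basic : ∀ {n : ℕ} {X : W.Var n} {Y : W.Var (n + 1)} (f : 𝓕.Fib X Y), 𝓕.Basic D f
  vertical : ∀ {n : ℕ} {X : W.Var n} {Y : W.Var (n + 1)} (f : 𝓕.Fib X Y), 𝓕.Vertical f
  models : ∀ {n : ℕ} (S : W.Var (n + 1)), W.dim S ≤ 2 → 𝓕.Models S
  spreading : ∀ {n : ℕ} {X : W.Var n} {Y : W.Var (n + 1)} (f : 𝓕.Fib X Y)
    (P : W.Var (n + 1) → Prop), (∀ S, P S → 𝓕.Models S) → ∀ e ∈ Through W P Y,
    (∀ g ∈ 𝓕.mon f, W.comp g e = W.comp e g) →
    ∃ F ∈ Through W (fun Z => ∃ S, P S ∧ Nonempty (𝓕.Fib Z S)) X,
      𝓕.Compatible f F e ∧ 𝓕.Compatible f (D.t X F) (D.t Y e)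

section theory

variable {W : Weil K} {𝓕 : Fibrations W} {D : Duality W} (h : 𝓕.Theory D) {n : ℕ} {X : W.Var n}
  {Y : W.Var (n + 1)} (f : 𝓕.Fib X Y)

include h f

theorem Fibrations.Theory.dim_eq : W.dim X = W.dim Y + 1 := (h.basic f).dim_eq

theorem Fibrations.Theory.res_deg : W.HasDeg 0 (𝓕.res f) := (h.basic f).res_deg

theorem Fibrations.Theory.res_zero : ∀ x, W.InH X 0 x → W.ap (𝓕.res f) x = 0 → x = 0 :=
  (h.basic f).res_zero

theorem Fibrations.Theory.mon_deg : ∀ g ∈ 𝓕.mon f, W.HasDeg 0 g := (h.basic f).mon_deg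

theorem Fibrations.Theory.mon_dual : ∀ g ∈ 𝓕.mon f, W.comp (D.t Y g) g = W.id Y :=
  (h.basic f).mon_dual

theorem Fibrations.Theory.mon_alg : ∀ g ∈ 𝓕.mon f, ∀ r : ℤ, ∀ v ∈ W.alg Y r,
    W.ap g v ∈ W.alg Y r := (h.basic f).mon_alg

theorem Fibrations.Theory.fixed : ∀ g ∈ 𝓕.mon f, W.comp g (𝓕.res f) = 𝓕.res f :=
  (h.basic f).fixed

theorem Fibrations.Theory.vert_low : ∀ v ∈ 𝓕.vert f, ∀ i ≤ 1, W.InH X i v → v = 0 :=
  (h.vertical f).low

theorem Fibrations.Theory.vert_two : ∀ v ∈ 𝓕.vert f, W.InH X 2 v →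
    v ∈ Submodule.span K (W.alg X 1 : Set (W.H X)) := (h.vertical f).two

theorem Fibrations.Theory.vert_three : 4 ≤ W.dim X →
    ∃ θ ∈ Through W (fun T => W.dim T ≤ 1) X, ∀ v ∈ 𝓕.vert f, W.InH X 3 v →
      v - W.ap θ v ∈ 𝓕.gys f := (h.vertical f).three

theorem Fibrations.Theory.spread (P : W.Var (n + 1) → Prop) (hP : ∀ S, P S → 𝓕.Models S) :
    ∀ e ∈ Through W P Y, (∀ g ∈ 𝓕.mon f, W.comp g e = W.comp e g) →
    ∃ F ∈ Through W (fun Z => ∃ S, P S ∧ Nonempty (𝓕.Fib Z S)) X,
      ∀ G g, (G = F ∧ g = e) ∨ (G = D.t X F ∧ g = D.t Y e) →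
      W.comp (𝓕.res f) G = W.comp g (𝓕.res f) ∧
      ∀ (c : K) (i : ℕ), W.comp g (W.pj Y i) = c • W.pj Y i →
        (∀ x, W.InH X (i + 1) x → W.ap (𝓕.res f) x = 0 → W.ap G x - c • x ∈ 𝓕.vert f) ∧
        ∀ x, W.InH X (i + 2) x → x ∈ 𝓕.gys f → W.ap G x = c • x := by
  intro e he hg
  obtain ⟨F, hF, h1, h2⟩ := h.spreading f P hP e he hg
  refine ⟨F, hF, ?_⟩
  rintro G g (⟨rfl, rfl⟩ | ⟨rfl, rfl⟩)
  · exact h1
  · exact h2

end theory

/-- the classes from the fibres outside `U`, in the degrees `j` with `4 ≤ j < dim X`, are split off,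
modulo `gys`, by correspondences which factor through varieties with the property `Q`. There is no
condition if `dim X ≤ 4` -/
def Fibrations.Split {W : Weil K} (𝓕 : Fibrations W) {n : ℕ} {X : W.Var n} {Y : W.Var (n + 1)}
    (f : 𝓕.Fib X Y) (Q : W.Var n → Prop) : Prop :=
  ∀ j, 4 ≤ j → j < W.dim X → ∃ θ ∈ Through W Q X, ∀ v ∈ 𝓕.vert f, W.InH X j v →
    v - W.ap θ v ∈ 𝓕.gys f

/-- `X'` dominates `X` by a morphism: there is a generically finite morphism `X' → X`, of degree
`N`; `a` and `b` are the push-forward and the pull-back -/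
def Dominates (W : Weil K) {n : ℕ} (X' X : W.Var n) : Prop :=
  ∃ a ∈ W.cyc X' X 0, ∃ b ∈ W.cyc X X' 0, ∃ N : ℕ, 0 < N ∧ W.comp a b = W.rat N (W.id X)

/-- `X'` dominates `X` by a rational map: there is a dominant rational map from `X'` to `X`, of the
same dimension, of degree `N`; `a` and `b` are given by the closure of the graph. The correspondence
`a b - N` is supported on `E × E'`, where `E` and `E'` have codimension `1` in `X`; so it is a sum of
compositions `X → Z → X` with smooth projective varieties `Z` of dimension `dim X - 1`, of the degrees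
`-2` and `2` -/
def RatDominates (W : Weil K) {n : ℕ} (X' X : W.Var n) : Prop :=
  ∃ a ∈ W.cyc X' X 0, ∃ b ∈ W.cyc X X' 0, ∃ N : ℕ, 0 < N ∧
    W.comp a b - W.rat N (W.id X) ∈ Submodule.span ℚ {f : W.Hom X X | ∃ Z : W.Var n,
      ∃ h ∈ W.cyc X Z (-1), ∃ g ∈ W.cyc Z X 1, f = W.comp g h}

end Pool.Agent.H64.FT
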