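import Pool.Agent.H64.FT.Prod

/-!
# Rational maps
-/

set_option autoImplicit false

open Matrix

namespace Pool.Agent.H64.FT

open Pool.Agent.H64.CC

variable {K : Type} [Field K] [CharZero K] {W : Weil K} {D : Duality W}

/-- by duality the Künneth projectors of degree less than the dimension are enough -/
theorem C_of_low (hW : W.Calculus) (D : Duality W) {n d : ℕ} {X : W.Var n} (hX : W.dim X = d)
    (h : ∀ i < d, W.pj X i ∈ W.cyc X X 0) : W.C X := by
  have hne : ∀ i, i ≠ d → W.pj X i ∈ W.cyc X X 0 := by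
    intro i hi
    rcases Nat.lt_or_ge i d with hlt | hge
    · exact h i hlt
    · rcases Nat.lt_or_ge (2 * d) i with h6 | h6
      · rw [pj_eq_zero X (2 * d) i (fun a => by have := hW.deg_le X a; omega) h6]
        exact Submodule.zero_mem _
      · have h1 := D.pj X (2 * d - i) (by omega)
        rw [hX, show 2 * d - (2 * d - i) = i by omega] at h1
        rw [← h1]
        exact D.mem X 0 _ (h _ (by omega))
  intro i
  by_cases hi : i = d
  · subst hi
    have h4 := sum_pj X (2 * i) (fun a => by have := hW.deg_le X a; omega)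
    rw [← Finset.add_sum_erase _ _ (show i ∈ Finset.range (2 * i + 1) by simp; omega)] at h4
    have h5 : W.pj X i = 1 - ∑ j ∈ (Finset.range (2 * i + 1)).erase i, W.pj X j := by
      rw [← h4]; abel
    rw [h5]
    exact Submodule.sub_mem _ (hW.one_mem X)
      (Submodule.sum_mem _ fun j hj => hne j (Finset.ne_of_mem_erase hj))
  · exact hne i hi

/-- the Künneth projectors of a variety of dimension at most `4` which is dominated, by a rational
map, by a variety with algebraic Künneth projectors -/
theorem C_of_rat (hW : W.Calculus) (hK : Known W D) {n : ℕ} {X' X : W.Var n} (hX : W.dim X ≤ 4)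
    (h : RatDominates W X' X) (hC : W.C X') : W.C X := by
  obtain ⟨a, ha, b, hb, N, hN, hE⟩ := h
  have hN0 : (N : ℚ) ≠ 0 := by exact_mod_cast hN.ne'
  have hpb : ∀ i, W.pj X i * (a * b) ∈ W.cyc X X 0 := by
    intro i
    have h1 := hW.comp_mem X' X' X 0 0 (W.pj X' i) (hC i) a ha
    have h3 := hW.comp_mem X X' X 0 (0 + 0) b hb _ h1
    rw [add_zero, add_zero] at h3
    have h4 : W.comp (W.comp a (W.pj X' i)) b = W.pj X i * (a * b) := by
      show a * W.pj X' i * b = _
      rw [← Matrix.mul_assoc, ← pj_comm (hW.cyc_deg X' X 0 a ha) i i (by ring)]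
    rw [h4] at h3
    exact h3
  -- the components of the correspondences supported on divisors
  have hE' : ∀ f ∈ Submodule.span ℚ {f : W.Hom X X | ∃ Z : W.Var n,
      ∃ h ∈ W.cyc X Z (-1), ∃ g ∈ W.cyc Z X 1, f = W.comp g h}, ∀ i ≤ 3,
      W.pj X i * f ∈ W.cyc X X 0 := by
    intro f hf i hi
    induction hf using Submodule.span_induction with
    | mem f hf =>
      obtain ⟨Z, h, hh, g, hg, rfl⟩ := hf
      have hgdeg := hW.cyc_deg Z X 1 g hg
      show W.pj X i * (g * h) ∈ _
      rw [← Matrix.mul_assoc]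
      rcases Nat.lt_or_ge i 2 with h2 | h2
      · rw [pj_zero_of hgdeg i (fun k => by omega), Matrix.zero_mul]
        exact Submodule.zero_mem _
      · obtain ⟨k, rfl⟩ : ∃ k, i = k + 2 := ⟨i - 2, by omega⟩
        rw [pj_comm hgdeg k (k + 2) (by push_cast; ring), Matrix.mul_assoc]
        have hk : W.pj Z k ∈ W.cyc Z Z 0 := by
          have h3 : k = 0 ∨ k = 1 := by omega
          rcases h3 with rfl | rfl
          · exact (hK.low Z).1
          · exact (hK.low Z).2
        have h4 := hW.comp_mem X Z Z (-1) 0 h hh _ hk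
        have h5 := hW.comp_mem X Z X (-1 + 0) 1 _ h4 g hg
        have e : (-1 + 0 + 1 : ℤ) = 0 := by ring
        rw [e] at h5
        exact h5
    | zero => rw [mul_zero]; exact Submodule.zero_mem _
    | add f g _ _ h1 h2 => rw [mul_add]; exact Submodule.add_mem _ h1 h2
    | smul c f _ h1 => rw [Matrix.mul_smul]; exact Submodule.smul_mem _ c h1
  refine C_of_low hW D rfl fun i hi => ?_
  have h1 := hE' _ hE i (by omega)
  have h2 : W.pj X i * (W.comp a b - W.rat N (W.id X)) =
      W.pj X i * (a * b) - (N : ℚ) • W.pj X i := by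
    rw [mul_sub]
    congr 1
    show W.pj X i * (((N : ℚ) : K) • (1 : W.Hom X X)) = _
    rw [Matrix.mul_smul, mul_one]
    ext u v
    simp [Rat.smul_def]
  rw [h2] at h1
  have h3 := Submodule.sub_mem _ (hpb i) h1
  rw [sub_sub_cancel] at h3
  have h4 : W.pj X i = (N : ℚ)⁻¹ • ((N : ℚ) • W.pj X i) := by
    rw [smul_smul, inv_mul_cancel₀ hN0, one_smul]
  rw [h4]
  exact Submodule.smul_mem _ _ h3

end Pool.Agent.H64.FT
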