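import Pool.Agent.H64.FT.Slope
import Pool.Agent.H16.FT.Key
import Pool.Agent.H90.FT.Transfer
import Pool.Agent.H90.FT.Square

/-!
# The class of varieties
-/

set_option autoImplicit false

open Matrix

namespace Pool.Agent.H64.FT

open Pool.Agent.H64.CC

variable {K : Type} [Field K] [CharZero K]

/-- Let `𝓕` be the fibrations over curves. The smallest class of smooth projective varieties with the
following properties:

* `small`: it contains the varieties of dimension at most `2`;
* `prod`: it is closed under products;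
* `dom`: it contains every variety `X` with a generically finite morphism `X' → X`, where `X'`
  belongs to it;
* `rat`: it contains every variety `X` of dimension at most `4` with a dominant rational map from a
  variety `X'`, of the same dimension, which belongs to it;
* `fib`: it contains every variety `X` with a fibration over a curve, with geometric generic fibre
  `Y`, for which there is a symmetric correspondence `e` on `Y`, fixed by the monodromy group, which
  is the identity on `Hⁱ(Y)` for `i ≠ dim Y` and on the classes in `H^(dim Y)(Y)` fixed by the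
  monodromy group, and which factors through varieties `S` which have models and all of whose
  models `Z` over `F n` belong to the class; if `dim X ≥ 5` it is supposed that the classes of degree
  `4, …, dim X - 1` from the singular fibres are split off by correspondences which factor through
  varieties which belong to the class. -/
inductive Covered {W : Weil K} (D : Duality W) (𝓕 : Fibrations W) : ∀ {n : ℕ}, W.Var n → Prop
  | small {n : ℕ} (X : W.Var n) : W.dim X ≤ 2 → Covered D 𝓕 X
  | prod {n : ℕ} (X Y : W.Var n) : Covered D 𝓕 X → Covered D 𝓕 Y → Covered D 𝓕 (W.prod X Y)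
  | dom {n : ℕ} (X' X : W.Var n) : Dominates W X' X → Covered D 𝓕 X' → Covered D 𝓕 X
  | rat {n : ℕ} (X' X : W.Var n) : W.dim X ≤ 4 → RatDominates W X' X → Covered D 𝓕 X' →
      Covered D 𝓕 X
  | fib {n : ℕ} (X : W.Var n) (Y : W.Var (n + 1)) (f : 𝓕.Fib X Y)
      (Q : W.Var n → Prop) (P : W.Var (n + 1) → Prop) (e : W.Hom Y Y) :
      (∀ T, Q T → Covered D 𝓕 T) → 𝓕.Split f Q → (∀ S, P S → 𝓕.Models S) →
      (∀ S, P S → ∀ Z, Nonempty (𝓕.Fib Z S) → Covered D 𝓕 Z) → e ∈ Through W P Y →
      D.t Y e = e → (∀ g ∈ 𝓕.mon f, W.comp g e = W.comp e g) →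
      (∀ i, i ≠ W.dim Y → W.comp e (W.pj Y i) = W.pj Y i) →
      (∀ y, W.InH Y (W.dim Y) y → (∀ g ∈ 𝓕.mon f, W.ap g y = y) → W.ap e y = y) →
      Covered D 𝓕 X

variable {W : Weil K} {D : Duality W} {𝓕 : Fibrations W}

/-- all Künneth projectors of the varieties of the class are algebraic -/
theorem Covered.C (hW : W.Calculus) (hP : W.Products) (hK : Known W D) (h𝓕 : 𝓕.Theory D)
    {n : ℕ} {X : W.Var n} (h : Covered D 𝓕 X) : W.C X := by
  induction h with
  | small X hX => exact hK.surfaces X hX
  | prod X Y _ _ h1 h2 => exact C_prod hP h1 h2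
  | dom X' X h _ h1 => exact C_of_dominates hW h h1
  | rat X' X hX h _ h1 => exact C_of_rat hW hK hX h h1
  | fib X Y f Q P e _ hsplit hPm _ he hte hcomm hepj hfix hQ hPC =>
    exact C_of_fibration hW hK h𝓕 f hQ hsplit hPm hPC he hte hcomm hepj hfix

theorem cplus_of_C {n : ℕ} (hW : W.Calculus) {X : W.Var n} (h : W.C X) : W.Cplus X := by
  have h1 : W.even X = ∑ i ∈ Finset.range (2 * W.dim X + 1), if Even i then W.pj X i else 0 := by
    ext a b
    rw [Matrix.sum_apply]
    by_cases hab : a = b
    · subst hab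
      rw [Finset.sum_eq_single (W.deg X a)]
      · unfold Weil.even
        rw [Matrix.diagonal_apply_eq]
        split_ifs with h2
        · rw [pj_apply, if_pos rfl, if_pos rfl]
        · rfl
      · intro i _ hi
        split_ifs with h2
        · rw [pj_apply, if_pos rfl, if_neg (Ne.symm hi)]
        · rfl
      · intro h2
        have := hW.deg_le X a
        exact absurd (Finset.mem_range.2 (by omega)) h2
    · unfold Weil.even
      rw [Matrix.diagonal_apply_ne _ hab]
      symm
      refine Finset.sum_eq_zero fun i _ => ?_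
      split_ifs with h2
      · rw [pj_apply, if_neg hab]
      · rfl
  show W.even X ∈ W.cyc X X 0
  rw [h1]
  refine Submodule.sum_mem _ fun i _ => ?_
  split_ifs
  · exact h i
  · exact Submodule.zero_mem _

/-- threefolds with algebraic fixed classes -/
theorem covered_fixed (hK : Known W D) (h𝓕 : 𝓕.Theory D) {n : ℕ} (X : W.Var n)
    (Y : W.Var (n + 1)) (f : 𝓕.Fib X Y) (hX : W.dim X = 3)
    (hfix : ∀ y, W.InH Y 2 y → (∀ g ∈ 𝓕.mon f, W.ap g y = y) →
      y ∈ Submodule.span K (W.alg Y 1 : Set (W.H Y))) : Covered D 𝓕 X := by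
  have hY : W.dim Y = 2 := by have := h𝓕.dim_eq f; omega
  obtain ⟨e, he, hte, hepj, healg, heN⟩ := hK.murre Y hY
  have hcomm : ∀ g ∈ 𝓕.mon f, W.comp g e = W.comp e g := fun g hg =>
    murre_comm hte hepj healg heN (h𝓕.mon_deg f g hg) (h𝓕.mon_dual f g hg)
      (fun v hv => h𝓕.mon_alg f g hg 1 v hv)
  refine Covered.fib X Y f (fun _ => False) (fun T => W.dim T ≤ 1) e (fun _ h => h.elim)
    (fun j h4 hj => absurd hj (by omega)) (fun S hS => h𝓕.models S (le_trans hS (by norm_num)))
    ?_ he hte hcomm (by rw [hY]; exact hepj) ?_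
  · rintro S hS Z ⟨g⟩
    have := h𝓕.dim_eq g
    exact Covered.small Z (by omega)
  · intro y hy hy2
    rw [hY] at hy
    have h3 : ∀ v ∈ Submodule.span K (W.alg Y 1 : Set (W.H Y)), e *ᵥ v = v := by
      intro v hv
      induction hv using Submodule.span_induction with
      | mem x hx => exact healg x hx
      | zero => rw [Matrix.mulVec_zero]
      | add x y _ _ h1 h2 => rw [Matrix.mulVec_add, h1, h2]
      | smul c x _ h1 => rw [Matrix.mulVec_smul, h1]
    exact h3 y (hfix y hy hy2)

/-- fibre products of two fibred surfaces -/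
theorem covered_curves (hK : Known W D) (h𝓕 : 𝓕.Theory D) {n : ℕ} (X : W.Var n)
    (S₁ S₂ : W.Var (n + 1)) (f : 𝓕.Fib X (W.prod S₁ S₂)) (P : H16.FT.CurvePair W S₁ S₂)
    (hX : W.dim X = 3) (hdeg : P.Degenerates) (hcl : Nonempty P.Class)
    (hmon : ∀ g ∈ P.π, W.ext (P.ρ₁ g) (P.ρ₂ g) ∈ 𝓕.mon f) : Covered D 𝓕 X := by
  obtain ⟨Cl⟩ := hcl
  exact covered_fixed hK h𝓕 X _ f hX fun y hy hfix =>
    H16.FT.fixed_prod P hdeg Cl hy fun g hg => hfix _ (hmon g hg)

/-- threefolds fibred in surfaces with a place of Tate type -/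
theorem covered_tate (hK : Known W D) (h𝓕 : 𝓕.Theory D) {n : ℕ} (X : W.Var n)
    (Y : W.Var (n + 1)) (f : 𝓕.Fib X Y) (P : H16.FT.TateSurface (W := W) Y) (hX : W.dim X = 3)
    (hmon : ∀ g ∈ P.π, P.ρ g ∈ 𝓕.mon f) : Covered D 𝓕 X :=
  covered_fixed hK h𝓕 X Y f hX fun _ hy hfix =>
    H16.FT.fixed_tate P hy fun g hg => hfix _ (hmon g hg)

/-- threefolds fibred in surfaces with a simple part of small slope -/
theorem covered_slope (hK : Known W D) (h𝓕 : 𝓕.Theory D) {n : ℕ} (X : W.Var n)
    (Y : W.Var (n + 1)) (f : 𝓕.Fib X Y) (hX : W.dim X = 3)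
    (hP : SlopeSurface W Y (𝓕.mon f)) : Covered D 𝓕 X :=
  covered_fixed hK h𝓕 X Y f hX fun _ hy hfix => hP.fixed_alg hy hfix

/-- Let `A` be a surface and `S` a curve over `F (n + 1)`, and let `mon` be the monodromy group of a
fibration with geometric generic fibre `A × S`, acting on `H(A × S)`:

* `M`: the representations of (a subgroup of finite index of) the monodromy group on `H(A)` and
  `H(S)`; the group preserves the Poincaré duality on `A` (`dual`) and acts on `H(A × S)` by the
  tensor products (`mem`);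
* `G`: the Künneth formula and Poincaré duality for `A × S`; `point`: the projectors `pj₀` and `pj₂`
  of the curve `S` factor through a point;
* `r` is an algebraic and self-adjoint projector of `H(A)` onto a part of `H²(A)`, invariant under
  the monodromy, such that `1 - r` factors through curves `B` with the property `Q`. For example,
  let `r` be the projector onto the orthogonal complement of the classes of divisors, for any surface
  `A` (Murre; if `H¹(A) = 0` the curves `B` are lines or points), or, for `A = E × E`, where `E` is an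
  elliptic curve, the projector onto the symmetric square of `H¹(E)` (the curves `B` are isomorphic
  to `E` or to a line);
* `maximal`: `r H²(A)` is generated, as a representation of the monodromy group, by the images of
  the squares of the monodromy operators at the places of bad reduction. -/
structure SurfaceTimesCurve (W : Weil K) (D : Duality W) {m : ℕ} (A S : W.Var m)
    (mon : Set (W.Hom (W.prod A S) (W.prod A S))) (Q : W.Var m → Prop) where
  M : H16.FT.SurfaceCurve W A S
  G : H90.FT.Graph W D A S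
  r : W.Hom A A
  dim_A : W.dim A = 2
  dim_S : W.dim S = 1
  dual : ∀ g, W.comp (D.t A (M.ρA g)) (M.ρA g) = W.id A
  mem : ∀ g, W.ext (M.ρA g) (M.ρS g) ∈ mon
  point : W.id S - W.pj S 1 ∈ Through W (fun T => W.dim T = 0) S
  dim_Q : ∀ B, Q B → W.dim B ≤ 1
  r_through : W.id A - r ∈ Through W Q A
  r_deg : W.HasDeg 0 r
  r_dual : D.t A r = r
  r_two : ∀ i, i ≠ 2 → W.comp r (W.pj A i) = 0
  r_inv : ∀ g, W.comp (M.ρA g) r = W.comp r (M.ρA g)
  r_mon : ∀ g ∈ mon, W.comp g (W.ext r (W.pj S 1)) = W.comp (W.ext r (W.pj S 1)) g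
  maximal : M.Maximal r

/-- fourfolds fibred in products of a surface and a curve -/
theorem covered_four (hW : W.Calculus) (hP : W.Products) (hK : Known W D) (h𝓕 : 𝓕.Theory D)
    {n : ℕ} (X : W.Var n) (A S : W.Var (n + 1)) (f : 𝓕.Fib X (W.prod A S))
    (Q : W.Var (n + 1) → Prop) (N : SurfaceTimesCurve W D A S (𝓕.mon f) Q)
    (h₁ : ∀ T Z, W.dim T = 0 → Nonempty (𝓕.Fib Z (W.prod A T)) → Covered D 𝓕 Z)
    (h₂ : ∀ B Z, Q B → Nonempty (𝓕.Fib Z (W.prod B S)) → Covered D 𝓕 Z) : Covered D 𝓕 X := by
  have hY : W.dim (W.prod A S) = 3 := by rw [hP.dim_prod, N.dim_A, N.dim_S]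
  have hX : W.dim X = 4 := by have := h𝓕.dim_eq f; omega
  obtain ⟨k1, k2, k3, k4⟩ := H90.FT.prod_key hP D N.M N.G N.dim_S N.dual N.r_deg N.r_dual N.r_two
    N.r_inv N.maximal
  refine Covered.fib X _ f (fun _ => False)
    (fun V => (∃ B, Q B ∧ V = W.prod B S) ∨ ∃ T, W.dim T = 0 ∧ V = W.prod A T)
    (W.id _ - W.ext N.r (W.pj S 1)) (fun _ h => h.elim) (fun j h4 hj => absurd hj (by omega))
    ?_ ?_ ?_ k1 ?_ (by rw [hY]; exact k3) ?_
  · rintro V (⟨B, hB, rfl⟩ | ⟨T, hT, rfl⟩)
    · exact h𝓕.models _ (by rw [hP.dim_prod, N.dim_S]; have := N.dim_Q B hB; omega)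
    · exact h𝓕.models _ (by rw [hP.dim_prod, N.dim_A, hT])
  · rintro V (⟨B, hB, rfl⟩ | ⟨T, hT, rfl⟩) Z hZ
    · exact h₂ B Z hB hZ
    · exact h₁ T Z hT hZ
  · exact H90.FT.prod_key_mem hP hW Q (fun T => W.dim T = 0) _ (fun B hB => Or.inl ⟨B, hB, rfl⟩)
      (fun T hT => Or.inr ⟨T, hT, rfl⟩) N.r_through N.point
      (hK.surfaces S (by rw [N.dim_S]; norm_num) 1)
  · intro g hg
    have h1 := N.r_mon g hg
    unfold Weil.comp at h1 ⊢
    unfold Weil.id
    rw [mul_sub, sub_mul, one_mul, mul_one, h1]
  · intro y _ hy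
    exact k4 y fun g => hy _ (N.mem g)

end Pool.Agent.H64.FT
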