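import Pool.Agent.H64.FT.Defs

/-!
# Varieties fibred over a curve: the theorem
-/

set_option autoImplicit false

open Matrix

namespace Pool.Agent.H64.FT

open Pool.Agent.H64.CC

section basics

variable {K : Type} [Field K] [CharZero K] {W : Weil K}

theorem pj_apply {n : ℕ} (X : W.Var n) (i : ℕ) (a b : Fin (W.rk X)) :
    W.pj X i a b = if a = b then (if W.deg X a = i then 1 else 0) else 0 := by
  unfold Weil.pj
  rw [Matrix.diagonal_apply]

/-- multiplication by a projector on the left -/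
theorem pj_mul_apply {n m : ℕ} {X : W.Var n} {Y : W.Var m} (i : ℕ) (f : W.Hom X Y)
    (b : Fin (W.rk Y)) (a : Fin (W.rk X)) :
    (W.pj Y i * f) b a = if W.deg Y b = i then f b a else 0 := by
  unfold Weil.pj
  rw [Matrix.diagonal_mul]
  split_ifs <;> simp

theorem mul_pj_apply {n m : ℕ} {X : W.Var n} {Y : W.Var m} (i : ℕ) (f : W.Hom X Y)
    (b : Fin (W.rk Y)) (a : Fin (W.rk X)) :
    (f * W.pj X i) b a = if W.deg X a = i then f b a else 0 := by
  unfold Weil.pj
  rw [Matrix.mul_diagonal]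
  split_ifs <;> simp

/-- maps of degree `2 r` and projectors -/
theorem pj_comm {n m : ℕ} {X : W.Var n} {Y : W.Var m} {r : ℤ} {f : W.Hom X Y}
    (hf : W.HasDeg r f) (i j : ℕ) (h : (j : ℤ) = i + 2 * r) :
    W.pj Y j * f = f * W.pj X i := by
  ext b a
  rw [pj_mul_apply, mul_pj_apply]
  by_cases h0 : f b a = 0
  · simp [h0]
  · have h1 := hf b a h0
    have h2 : W.deg Y b = j ↔ W.deg X a = i := by omega
    simp only [h2]

theorem pj_zero_of {n m : ℕ} {X : W.Var n} {Y : W.Var m} {r : ℤ} {f : W.Hom X Y}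
    (hf : W.HasDeg r f) (j : ℕ) (h : ∀ i : ℕ, (j : ℤ) ≠ i + 2 * r) :
    W.pj Y j * f = 0 := by
  ext b a
  rw [pj_mul_apply]
  by_cases h0 : f b a = 0
  · simp [h0]
  · have h1 := hf b a h0
    have h2 : ¬ W.deg Y b = j := fun h3 => h (W.deg X a) (by rw [← h3, h1])
    simp [h2]

theorem pj_mul_pj {n : ℕ} (X : W.Var n) (i j : ℕ) :
    W.pj X i * W.pj X j = if i = j then W.pj X i else 0 := by
  ext b a
  rw [pj_mul_apply]
  by_cases hij : i = j
  · subst hij
    rw [if_pos rfl]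
    simp only [pj_apply]
    split_ifs <;> simp_all
  · rw [if_neg hij]
    simp only [pj_apply, Matrix.zero_apply]
    split_ifs with h1 h2 h3
    · omega
    · rfl
    · rfl
    · rfl

theorem pj_comm0 {n : ℕ} {X : W.Var n} {f : W.Hom X X} (hf : W.HasDeg 0 f) (i : ℕ) :
    W.pj X i * f = f * W.pj X i :=
  pj_comm hf i i (by ring)

/-- `f pj_i = 0` as soon as `f` is zero on `Hⁱ` -/
theorem mul_pj_eq_zero {n m : ℕ} {X : W.Var n} {Y : W.Var m} (f : W.Hom X Y) (i : ℕ)
    (h : ∀ x, W.InH X i x → f *ᵥ x = 0) : f * W.pj X i = 0 := by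
  have h1 : ∀ x : W.H X, (f * W.pj X i) *ᵥ x = 0 := by
    intro x
    rw [← Matrix.mulVec_mulVec]
    apply h
    intro a ha
    by_contra h2
    apply ha
    unfold Weil.pj
    rw [Matrix.mulVec_diagonal]
    simp [h2]
  ext b a
  have h2 := congrFun (h1 (Pi.single a 1)) b
  rw [Matrix.mulVec_single_one] at h2
  simpa using h2

theorem apply_of_mul_pj {n m : ℕ} {X : W.Var n} {Y : W.Var m} (f : W.Hom X Y) (i : ℕ)
    (h : f * W.pj X i = 0) (x : W.H X) (hx : W.InH X i x) : f *ᵥ x = 0 := by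
  have h1 : W.pj X i *ᵥ x = x := by
    ext a
    unfold Weil.pj
    rw [Matrix.mulVec_diagonal]
    by_cases h0 : x a = 0
    · simp [h0]
    · simp [hx a h0]
  rw [← h1, Matrix.mulVec_mulVec, h, Matrix.zero_mulVec]

theorem pj_mulVec {n : ℕ} {X : W.Var n} (i : ℕ) (x : W.H X) (hx : W.InH X i x) :
    W.pj X i *ᵥ x = x := by
  ext a
  unfold Weil.pj
  rw [Matrix.mulVec_diagonal]
  by_cases h0 : x a = 0
  · simp [h0]
  · simp [hx a h0]

/-- maps of degree `0` preserve the degree of vectors -/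
theorem inH_mulVec {n m : ℕ} {X : W.Var n} {Y : W.Var m} {f : W.Hom X Y} (hf : W.HasDeg 0 f)
    {i : ℕ} {x : W.H X} (hx : W.InH X i x) : W.InH Y i (f *ᵥ x) := by
  intro b hb
  rw [Matrix.mulVec, dotProduct] at hb
  obtain ⟨a, _, ha⟩ := Finset.exists_ne_zero_of_sum_ne_zero hb
  have h1 : f b a ≠ 0 := left_ne_zero_of_mul ha
  have h2 : x a ≠ 0 := right_ne_zero_of_mul ha
  have h3 := hf b a h1
  have h4 := hx a h2
  omega

theorem sum_pj {n : ℕ} (X : W.Var n) (N : ℕ) (hN : ∀ a, W.deg X a ≤ N) :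
    ∑ i ∈ Finset.range (N + 1), W.pj X i = 1 := by
  ext b a
  rw [Matrix.sum_apply]
  by_cases h : b = a
  · subst h
    simp only [pj_apply, if_true, Matrix.one_apply_eq]
    rw [Finset.sum_ite_eq]
    simp [Nat.lt_succ_of_le (hN b)]
  · simp [pj_apply, h, Matrix.one_apply_ne h]

theorem pj_eq_zero {n : ℕ} (X : W.Var n) (N i : ℕ) (hN : ∀ a, W.deg X a ≤ N) (hi : N < i) :
    W.pj X i = 0 := by
  ext b a
  rw [pj_apply, Matrix.zero_apply]
  split_ifs with h1 h2
  · have := hN b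
    omega
  · rfl
  · rfl

end basics


section good

variable {K : Type} [Field K] [CharZero K] (W : Weil K)

/-- the correspondences of degree `0` all of whose components are algebraic -/
def Good {n : ℕ} (X : W.Var n) : Submodule ℚ (W.Hom X X) where
  carrier := {f | f ∈ W.cyc X X 0 ∧ ∀ i, W.pj X i * f ∈ W.cyc X X 0}
  zero_mem' := ⟨Submodule.zero_mem _, fun i => by rw [mul_zero]; exact Submodule.zero_mem _⟩
  add_mem' := fun ha hb => ⟨Submodule.add_mem _ ha.1 hb.1, fun i => by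
    rw [mul_add]; exact Submodule.add_mem _ (ha.2 i) (hb.2 i)⟩
  smul_mem' := fun c f hf => ⟨Submodule.smul_mem _ c hf.1, fun i => by
    rw [Matrix.mul_smul]; exact Submodule.smul_mem _ c (hf.2 i)⟩

variable {W}

theorem mem_good {n : ℕ} {X : W.Var n} {f : W.Hom X X} :
    f ∈ Good W X ↔ f ∈ W.cyc X X 0 ∧ ∀ i, W.pj X i * f ∈ W.cyc X X 0 := Iff.rfl

theorem comp0 (hW : W.Calculus) {n : ℕ} {X : W.Var n} {f g : W.Hom X X}
    (hf : f ∈ W.cyc X X 0) (hg : g ∈ W.cyc X X 0) : g * f ∈ W.cyc X X 0 := by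
  have := hW.comp_mem X X X 0 0 f hf g hg
  rwa [add_zero] at this

theorem good_left (hW : W.Calculus) {n : ℕ} {X : W.Var n} {f a : W.Hom X X}
    (ha : a ∈ W.cyc X X 0) (hf : f ∈ Good W X) : a * f ∈ Good W X := by
  refine ⟨comp0 hW hf.1 ha, fun i => ?_⟩
  rw [← mul_assoc, pj_comm0 (hW.cyc_deg X X 0 a ha), mul_assoc]
  exact comp0 hW (hf.2 i) ha

theorem good_right (hW : W.Calculus) {n : ℕ} {X : W.Var n} {f a : W.Hom X X}
    (ha : a ∈ W.cyc X X 0) (hf : f ∈ Good W X) : f * a ∈ Good W X := by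
  refine ⟨comp0 hW ha hf.1, fun i => ?_⟩
  rw [← mul_assoc]
  exact comp0 hW ha (hf.2 i)

theorem good_of_single (_hW : W.Calculus) {n : ℕ} {X : W.Var n} {f : W.Hom X X} (i : ℕ)
    (hf : f ∈ W.cyc X X 0) (h : W.pj X i * f = f) : f ∈ Good W X := by
  refine ⟨hf, fun j => ?_⟩
  rw [← h, ← mul_assoc, pj_mul_pj]
  split_ifs with h1
  · rw [h1, h]
    exact hf
  · rw [zero_mul]
    exact Submodule.zero_mem _

theorem through_good (hW : W.Calculus) {n : ℕ} {P : W.Var n → Prop}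
    (hC : ∀ S : W.Var n, P S → W.C S) (X : W.Var n) : Through W P X ≤ Good W X := by
  refine Submodule.span_le.2 ?_
  rintro f ⟨S, r, hS, h, hh, g, hg, rfl⟩
  have hgdeg := hW.cyc_deg S X (-r) g hg
  have h1 : ∀ h' ∈ W.cyc X S r, g * h' ∈ W.cyc X X 0 := by
    intro h' hh'
    have := hW.comp_mem X S X r (-r) h' hh' g hg
    rwa [add_neg_cancel] at this
  refine ⟨h1 h hh, fun j => ?_⟩
  unfold Weil.comp
  rw [← Matrix.mul_assoc]
  by_cases hj : ∃ i : ℕ, (j : ℤ) = i + 2 * (-r)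
  · obtain ⟨i, hi⟩ := hj
    rw [pj_comm hgdeg i j hi, Matrix.mul_assoc]
    apply h1
    have := hW.comp_mem X S S r 0 h hh (W.pj S i) (hC S hS i)
    rwa [add_zero] at this
  · push Not at hj
    rw [pj_zero_of hgdeg j hj, Matrix.zero_mul]
    exact Submodule.zero_mem _

end good

section theta

variable {K : Type} [Field K] [CharZero K] {W : Weil K}

theorem isCurve_zero {n : ℕ} (X : W.Var n) : IsCurve W X 0 := by
  intro v _
  refine ⟨⟨0, by simp⟩, ?_⟩
  have : Matrix.vecMulVec v (0 : W.H X) = 0 := by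
    ext b a
    simp [Matrix.vecMulVec_apply]
  rw [this]
  exact Submodule.zero_mem _

theorem IsCurve.add {n : ℕ} {X : W.Var n} {φ ψ : W.H X} (h1 : IsCurve W X φ)
    (h2 : IsCurve W X ψ) : IsCurve W X (φ + ψ) := by
  intro v hv
  obtain ⟨⟨q1, hq1⟩, hc1⟩ := h1 v hv
  obtain ⟨⟨q2, hq2⟩, hc2⟩ := h2 v hv
  refine ⟨⟨q1 + q2, by rw [add_dotProduct, hq1, hq2]; push_cast; rfl⟩, ?_⟩
  have : Matrix.vecMulVec v (φ + ψ) = Matrix.vecMulVec v φ + Matrix.vecMulVec v ψ := by
    ext b a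
    simp [Matrix.vecMulVec_apply, mul_add]
  rw [this]
  exact Submodule.add_mem _ hc1 hc2

theorem IsCurve.smul {n : ℕ} {X : W.Var n} {φ : W.H X} (h1 : IsCurve W X φ) (c : ℚ) :
    IsCurve W X (c • φ) := by
  intro v hv
  obtain ⟨⟨q1, hq1⟩, hc1⟩ := h1 v hv
  refine ⟨⟨c * q1, by rw [smul_dotProduct, hq1, Rat.smul_def]; push_cast; rfl⟩, ?_⟩
  have : Matrix.vecMulVec v (c • φ) = c • Matrix.vecMulVec v φ := by
    ext b a
    simp [Matrix.vecMulVec_apply]
  rw [this]
  exact Submodule.smul_mem _ c hc1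

/-- an algebraic map which is the identity on the span of the classes of divisors -/
theorem exists_theta (hW : W.Calculus) {n : ℕ} (X : W.Var n)
    (hdiv : ∀ v ∈ W.alg X 1, v ≠ 0 → ∃ φ, IsCurve W X φ ∧ φ ⬝ᵥ v ≠ 0) :
    ∃ θ ∈ W.cyc X X 0, W.pj X 2 * θ = θ ∧ θ * W.pj X 2 = θ ∧
      ∀ v ∈ Submodule.span K (W.alg X 1 : Set (W.H X)), θ *ᵥ v = v := by
  obtain ⟨m, v, hv, hspan, hli⟩ : ∃ (m : ℕ) (v : Fin m → W.H X), (∀ i, v i ∈ W.alg X 1) ∧
      Submodule.span K (Set.range v) = Submodule.span K (W.alg X 1 : Set (W.H X)) ∧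
      LinearIndependent K v :=
    ⟨_, Submodule.exists_fun_fin_finrank_span_eq K (W.alg X 1 : Set (W.H X))⟩
  let Img : Submodule ℚ (Fin m → ℚ) :=
    { carrier := {q | ∃ φ, IsCurve W X φ ∧ ∀ j, φ ⬝ᵥ v j = (q j : K)}
      zero_mem' := ⟨0, isCurve_zero X, fun j => by simp⟩
      add_mem' := by
        rintro a b ⟨φ, h1, h2⟩ ⟨ψ, h3, h4⟩
        exact ⟨φ + ψ, h1.add h3, fun j => by
          rw [add_dotProduct, h2, h4, Pi.add_apply]; push_cast; rfl⟩
      smul_mem' := by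
        rintro c a ⟨φ, h1, h2⟩
        exact ⟨c • φ, h1.smul c, fun j => by
          rw [smul_dotProduct, h2, Pi.smul_apply, Rat.smul_def, smul_eq_mul]; push_cast; rfl⟩ }
  have htop : Img = ⊤ := by
    by_contra hne
    obtain ⟨f, hf0, hf⟩ := Submodule.exists_le_ker_of_lt_top Img (lt_top_iff_ne_top.2 hne)
    set w : W.H X := ∑ j, (f (Pi.single j 1)) • v j with hw
    have hwalg : w ∈ W.alg X 1 :=
      Submodule.sum_mem _ fun j _ => Submodule.smul_mem _ _ (hv j)
    have hfq : ∀ q : Fin m → ℚ, f q = ∑ j, q j * f (Pi.single j 1) := by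
      intro q
      conv_lhs => rw [← Finset.univ_sum_single q]
      rw [map_sum]
      refine Finset.sum_congr rfl fun j _ => ?_
      have : (Pi.single j (q j) : Fin m → ℚ) = q j • Pi.single j 1 := by
        ext k
        simp [Pi.single_apply]
      rw [this, map_smul, smul_eq_mul]
    have hw0 : w = 0 := by
      by_contra hne2
      obtain ⟨φ, hφ, hφw⟩ := hdiv w hwalg hne2
      apply hφw
      choose q hq using fun j => (hφ (v j) (hv j)).1
      have h1 : f q = 0 := hf (show q ∈ Img from ⟨φ, hφ, hq⟩)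
      rw [hfq] at h1
      rw [hw, dotProduct_sum]
      have h2 : ∀ j, φ ⬝ᵥ (f (Pi.single j 1) • v j) = ((q j * f (Pi.single j 1) : ℚ) : K) := by
        intro j
        rw [dotProduct_smul, hq, Rat.smul_def]
        push_cast
        ring
      rw [Finset.sum_congr rfl fun j _ => h2 j, ← Rat.cast_sum, h1, Rat.cast_zero]
    apply hf0
    have h3 : ∑ j, ((f (Pi.single j 1) : ℚ) : K) • v j = 0 := by
      rw [← hw0, hw]
      exact Finset.sum_congr rfl fun j _ => by
        ext a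
        simp [Rat.smul_def]
    have h4 := Fintype.linearIndependent_iff.1 hli _ h3
    apply LinearMap.ext
    intro q
    rw [hfq, LinearMap.zero_apply]
    exact Finset.sum_eq_zero fun j _ => by
      rw [Rat.cast_eq_zero.1 (h4 j), mul_zero]
  have hex : ∀ i : Fin m, ∃ φ, IsCurve W X φ ∧ ∀ j, φ ⬝ᵥ v j = ((Pi.single i 1 : Fin m → ℚ) j : K) := by
    intro i
    have : (Pi.single i 1 : Fin m → ℚ) ∈ Img := by rw [htop]; trivial
    exact this
  choose φ hφ hφv using hex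
  have hmem : ∑ i, Matrix.vecMulVec (v i) (φ i) ∈ W.cyc X X 0 :=
    Submodule.sum_mem _ fun i _ => (hφ i (v i) (hv i)).2
  have hpj : W.pj X 2 * ∑ i, Matrix.vecMulVec (v i) (φ i) = ∑ i, Matrix.vecMulVec (v i) (φ i) := by
    rw [Finset.mul_sum]
    refine Finset.sum_congr rfl fun i _ => ?_
    ext b a
    rw [pj_mul_apply]
    split_ifs with h
    · rfl
    · rw [Matrix.vecMulVec_apply]
      have : v i b = 0 := by
        by_contra h1
        apply h
        have := hW.alg_deg X 1 (v i) (hv i) b h1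
        omega
      rw [this, zero_mul]
  refine ⟨_, hmem, hpj, ?_, ?_⟩
  · rw [← pj_comm0 (hW.cyc_deg X X 0 _ hmem), hpj]
  · intro x hx
    rw [← hspan] at hx
    induction hx using Submodule.span_induction with
    | mem x hx =>
      obtain ⟨j, rfl⟩ := hx
      rw [Matrix.sum_mulVec]
      have h1 : ∀ i, Matrix.vecMulVec (v i) (φ i) *ᵥ v j =
          ((Pi.single i 1 : Fin m → ℚ) j : K) • v i := by
        intro i
        rw [Matrix.vecMulVec_mulVec, hφv]
        ext a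
        simp [mul_comm]
      rw [Finset.sum_congr rfl fun i _ => h1 i, Finset.sum_eq_single j]
      · simp
      · intro i _ hij
        rw [Pi.single_eq_of_ne (Ne.symm hij)]
        simp
      · intro h
        exact absurd (Finset.mem_univ j) h
    | zero => rw [Matrix.mulVec_zero]
    | add x y _ _ h1 h2 => rw [Matrix.mulVec_add, h1, h2]
    | smul c x _ h1 => rw [Matrix.mulVec_smul, h1]

end theta

section murre

variable {K : Type} [Field K] [CharZero K] {W : Weil K} {D : Duality W}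

theorem ext_pj {n m : ℕ} {X : W.Var n} {Y : W.Var m} {f g : W.Hom X Y}
    (h : ∀ i, f * W.pj X i = g * W.pj X i) : f = g := by
  ext b a
  have h1 := congrFun (congrFun (h (W.deg X a)) b) a
  rw [mul_pj_apply, mul_pj_apply, if_pos rfl, if_pos rfl] at h1
  exact h1

/-- the projector of Murre commutes with the automorphisms which preserve the degrees, the duality
and the classes of divisors -/
theorem murre_comm {n : ℕ} {Y : W.Var n} {e g : W.Hom Y Y}
    (hte : D.t Y e = e) (hepj : ∀ i, i ≠ 2 → e * W.pj Y i = W.pj Y i)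
    (healg : ∀ v ∈ W.alg Y 1, e *ᵥ v = v)
    (heN : ∀ v, W.InH Y 2 v → e *ᵥ v ∈ Submodule.span K (W.alg Y 1 : Set (W.H Y)))
    (hg : W.HasDeg 0 g) (hgt : D.t Y g * g = 1)
    (hgalg : ∀ v ∈ W.alg Y 1, g *ᵥ v ∈ W.alg Y 1) : g * e = e * g := by
  set g' := D.t Y g with hg'
  have hgg' : g * g' = 1 := mul_eq_one_comm.1 hgt
  set N := Submodule.span K (W.alg Y 1 : Set (W.H Y)) with hN
  -- `g` maps `N` onto `N`
  have h1 : ∀ v ∈ N, g *ᵥ v ∈ N := by
    intro v hv
    induction hv using Submodule.span_induction with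
    | mem x hx => exact Submodule.subset_span (hgalg x hx)
    | zero => rw [Matrix.mulVec_zero]; exact N.zero_mem
    | add x y _ _ h1 h2 => rw [Matrix.mulVec_add]; exact N.add_mem h1 h2
    | smul c x _ h1 => rw [Matrix.mulVec_smul]; exact N.smul_mem c h1
  have h2 : ∀ v ∈ N, g' *ᵥ v ∈ N := by
    let L : N →ₗ[K] N := (Matrix.mulVecLin g).restrict (fun v hv => h1 v hv)
    have hinj : Function.Injective L := by
      intro a b hab
      have h3 : g *ᵥ (a : W.H Y) = g *ᵥ (b : W.H Y) := congrArg Subtype.val hab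
      have h4 := congrArg (fun v => g' *ᵥ v) h3
      simp only [Matrix.mulVec_mulVec, hgt, Matrix.one_mulVec] at h4
      exact Subtype.ext h4
    have hsurj := LinearMap.injective_iff_surjective.1 hinj
    intro v hv
    obtain ⟨u, hu⟩ := hsurj ⟨v, hv⟩
    have h3 : g *ᵥ (u : W.H Y) = v := congrArg Subtype.val hu
    rw [← h3, Matrix.mulVec_mulVec, hgt, Matrix.one_mulVec]
    exact u.2
  have h3 : ∀ v ∈ N, e *ᵥ v = v := by
    intro v hv
    induction hv using Submodule.span_induction with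
    | mem x hx => exact healg x hx
    | zero => rw [Matrix.mulVec_zero]
    | add x y _ _ h1 h2 => rw [Matrix.mulVec_add, h1, h2]
    | smul c x _ h1 => rw [Matrix.mulVec_smul, h1]
  have hg'pj : ∀ i, g' * W.pj Y i = W.pj Y i * g' := by
    intro i
    have h4 := pj_comm0 hg i
    calc g' * W.pj Y i = g' * (W.pj Y i * g) * g' := by
          rw [mul_assoc, mul_assoc, hgg', mul_one]
      _ = g' * (g * W.pj Y i) * g' := by rw [h4]
      _ = W.pj Y i * g' := by rw [← mul_assoc, hgt, one_mul]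
  have hg'deg : ∀ (i : ℕ) (x : W.H Y), W.InH Y i x → W.InH Y i (g' *ᵥ x) := by
    intro i x hx
    have h5 : W.pj Y i *ᵥ (g' *ᵥ x) = g' *ᵥ x := by
      rw [Matrix.mulVec_mulVec, ← hg'pj, ← Matrix.mulVec_mulVec, pj_mulVec i x hx]
    intro a ha
    by_contra h6
    apply ha
    rw [← h5]
    unfold Weil.pj
    rw [Matrix.mulVec_diagonal]
    simp [h6]
  set e' := g * e * g' with he'
  have hpj' : ∀ i, i ≠ 2 → e' * W.pj Y i = W.pj Y i := by
    intro i hi
    rw [he', mul_assoc, hg'pj, ← mul_assoc, mul_assoc g e, hepj i hi, ← pj_comm0 hg, mul_assoc,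
      hgg', mul_one]
  have h4 : ∀ x, W.InH Y 2 x → e' *ᵥ x ∈ N := by
    intro x hx
    rw [he', ← Matrix.mulVec_mulVec, ← Matrix.mulVec_mulVec]
    exact h1 _ (heN _ (hg'deg 2 x hx))
  have h5 : ∀ v ∈ N, e' *ᵥ v = v := by
    intro v hv
    rw [he', ← Matrix.mulVec_mulVec, ← Matrix.mulVec_mulVec, h3 _ (h2 v hv), Matrix.mulVec_mulVec,
      hgg', Matrix.one_mulVec]
  have hee' : e * e' = e' := by
    apply ext_pj
    intro i
    by_cases hi : i = 2
    · subst hi
      rw [← sub_eq_zero, ← sub_mul]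
      apply mul_pj_eq_zero
      intro x hx
      rw [Matrix.sub_mulVec, ← Matrix.mulVec_mulVec, h3 _ (h4 x hx), sub_self]
    · rw [mul_assoc, hpj' i hi, hepj i hi]
  have he'e : e' * e = e := by
    apply ext_pj
    intro i
    by_cases hi : i = 2
    · subst hi
      rw [← sub_eq_zero, ← sub_mul]
      apply mul_pj_eq_zero
      intro x hx
      rw [Matrix.sub_mulVec, ← Matrix.mulVec_mulVec, h5 _ (heN x hx), sub_self]
    · rw [mul_assoc, hepj i hi, hpj' i hi]
  have htg' : D.t Y g' = g := by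
    have h6 : D.t Y (g' * g) = D.t Y g * D.t Y g' := D.anti Y g g'
    rw [hgt, ← hg'] at h6
    have h7 : D.t Y (1 : W.Hom Y Y) = 1 := D.one Y
    rw [h7] at h6
    calc D.t Y g' = g * g' * D.t Y g' := by rw [hgg', one_mul]
      _ = g * (g' * D.t Y g') := by rw [mul_assoc]
      _ = g := by rw [← h6, mul_one]
  have hte' : D.t Y e' = e' := by
    have h6 : D.t Y (g * e * g') = D.t Y g' * D.t Y (g * e) := D.anti Y g' (g * e)
    have h7 : D.t Y (g * e) = D.t Y e * D.t Y g := D.anti Y e g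
    rw [he', h6, h7, htg', hte, ← hg', mul_assoc]
  have heq : e = e' := by
    have h6 : D.t Y (e * e') = D.t Y e' * D.t Y e := D.anti Y e' e
    rw [hee', hte', hte, he'e] at h6
    exact h6.symm
  calc g * e = g * e * (g' * g) := by rw [hgt, mul_one]
    _ = e' * g := by rw [he', mul_assoc (g * e)]
    _ = e * g := by rw [← heq]

end murre

section main

variable {K : Type} [Field K] [CharZero K] {W : Weil K} {D : Duality W}

/-- the final argument, in any dimension -/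
theorem C_of_core (hW : W.Calculus) (D : Duality W) {n d : ℕ} {X : W.Var n} (hX : W.dim X = d)
    {F θ : W.Hom X X} (hF : F ∈ Good W X) (hθ : θ ∈ Good W X)
    (hhigh : ∀ j, d ≤ j → θ * W.pj X j = 0)
    (h1 : ∀ j < d, (1 - F) * (1 - θ) * ((1 - F) * (1 - F)) * W.pj X j = 0)
    (h2 : ∀ j < d, (1 - D.t X F) * (1 - θ) * ((1 - D.t X F) * (1 - D.t X F)) * W.pj X j = 0) :
    W.C X := by
  have one_mem : (1 : W.Hom X X) ∈ W.cyc X X 0 := hW.one_mem X
  obtain ⟨t, ht⟩ : ∃ t, t = D.t X := ⟨_, rfl⟩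
  rw [← ht] at h2
  have tmul : ∀ f g : W.Hom X X, t (g * f) = t f * t g := by rw [ht]; exact D.anti X
  have tone : t 1 = 1 := by rw [ht]; exact D.one X
  have tlin := D.lin X
  rw [← ht] at tlin
  have tsub : ∀ f g : W.Hom X X, t (f - g) = t f - t g := fun f g => (tlin.mk' _).map_sub f g
  have tzero : t 0 = 0 := (tlin.mk' _).map_zero
  have ttF : t (t F) = F := by rw [ht]; exact D.invol X 0 F hF.1
  have tmem : ∀ f ∈ W.cyc X X 0, t f ∈ W.cyc X X 0 := by rw [ht]; exact D.mem X 0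
  have tpj : ∀ i ≤ 2 * d, t (W.pj X i) = W.pj X (2 * d - i) := by
    intro i hi
    have := D.pj X i (by omega)
    rw [hX, ← ht] at this
    exact this
  have hbig : ∀ i, 2 * d < i → W.pj X i = 0 := fun i hi =>
    pj_eq_zero X (2 * d) i (fun a => by have := hW.deg_le X a; omega) hi
  -- the transposed `θ` is good
  have htθ : t θ ∈ Good W X := by
    refine ⟨tmem _ hθ.1, fun i => ?_⟩
    rcases Nat.lt_or_ge (2 * d) i with h | h
    · rw [hbig i h, zero_mul]
      exact Submodule.zero_mem _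
    · have h3 : W.pj X i = t (W.pj X (2 * d - i)) := by
        rw [tpj _ (by omega)]
        congr 1
        omega
      rw [h3, ← tmul]
      apply tmem
      rw [← pj_comm0 (hW.cyc_deg X X 0 _ hθ.1)]
      exact hθ.2 _
  have htθlow : ∀ j, j ≤ d → t θ * W.pj X j = 0 := by
    intro j hj
    have h3 : W.pj X j = t (W.pj X (2 * d - j)) := by
      rw [tpj _ (by omega)]
      congr 1
      omega
    rw [h3, ← tmul, pj_comm0 (hW.cyc_deg X X 0 _ hθ.1), hhigh _ (by omega), tzero]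
  have hPi : (1 - F) ∈ W.cyc X X 0 := Submodule.sub_mem _ one_mem hF.1
  have h1θ : (1 - θ) ∈ W.cyc X X 0 := Submodule.sub_mem _ one_mem hθ.1
  have h1tθ : (1 - t θ) ∈ W.cyc X X 0 := Submodule.sub_mem _ one_mem htθ.1
  obtain ⟨c, hc⟩ : ∃ c, c = (1 - F) * (1 - θ) * ((1 - F) * (1 - F)) * (1 - t θ) * (1 - F) :=
    ⟨_, rfl⟩
  have e1 : (1 - F) * (1 - θ) * ((1 - F) * (1 - F)) ∈ W.cyc X X 0 :=
    comp0 hW (comp0 hW hPi hPi) (comp0 hW h1θ hPi)
  have e2 : (1 - F) * (1 - θ) * ((1 - F) * (1 - F)) * (1 - t θ) ∈ W.cyc X X 0 := comp0 hW h1tθ e1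
  have hcmem : c ∈ W.cyc X X 0 := by rw [hc]; exact comp0 hW hPi e2
  -- `1 - c` is good
  have hgood : 1 - c ∈ Good W X := by
    -- if `1 - a` and `b` are good then `1 - a (1 - b)` is good
    have step : ∀ a b : W.Hom X X, a ∈ W.cyc X X 0 → 1 - a ∈ Good W X → b ∈ Good W X →
        1 - a * (1 - b) ∈ Good W X := by
      intro a b ha h3 h4
      have : 1 - a * (1 - b) = (1 - a) + a * b := by noncomm_ring
      rw [this]
      exact Submodule.add_mem _ h3 (good_left hW ha h4)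
    have s1 : 1 - (1 - F) ∈ Good W X := by rw [sub_sub_cancel]; exact hF
    have s2 := step _ _ hPi s1 hθ
    have e3 : (1 - F) * (1 - θ) ∈ W.cyc X X 0 := comp0 hW h1θ hPi
    have s3 := step _ _ e3 s2 hF
    have s4 := step _ _ (comp0 hW hPi e3) s3 hF
    rw [mul_assoc ((1 - F) * (1 - θ))] at s4
    have s5 := step _ _ e1 s4 htθ
    rw [hc]
    exact step _ _ e2 s5 hF
  have hdegc : W.HasDeg 0 c := hW.cyc_deg X X 0 c hcmem
  have hdPi : W.HasDeg 0 (1 - F) := hW.cyc_deg X X 0 _ hPi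
  -- `c` is zero outside degree `d`
  have hc0 : ∀ i, i ≠ d → c * W.pj X i = 0 := by
    intro i hi
    rcases Nat.lt_or_ge i d with hlt | hge
    · have h3 : (1 - t θ) * (1 - F) * W.pj X i = (1 - F) * W.pj X i := by
        rw [mul_assoc, ← pj_comm0 hdPi, ← mul_assoc, sub_mul, htθlow i hlt.le, sub_zero, one_mul]
      have h4 : c * W.pj X i =
          (1 - F) * (1 - θ) * ((1 - F) * (1 - F)) * ((1 - t θ) * (1 - F) * W.pj X i) := by
        rw [hc]
        simp only [mul_assoc]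
      rw [h4, h3, ← pj_comm0 hdPi, ← mul_assoc, h1 i hlt, zero_mul]
    · rcases Nat.lt_or_ge (2 * d) i with h6 | h6
      · rw [hbig i h6, mul_zero]
      · have h3 := h2 (2 * d - i) (by omega)
        have h4 := congrArg t h3
        rw [tzero, tmul, tmul, tmul, tmul, tsub, tsub, tone, ttF, tpj _ (by omega),
          show 2 * d - (2 * d - i) = i by omega] at h4
        -- `h4 : pj i * (Π Π * ((1 - tθ) * Π)) = 0`
        have h5 : c * W.pj X i = (1 - F) * (1 - θ) *
            ((1 - F) * (1 - F) * ((1 - t θ) * (1 - F)) * W.pj X i) := by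
          rw [hc]
          simp only [mul_assoc]
        have h7 : W.HasDeg 0 ((1 - F) * (1 - F) * ((1 - t θ) * (1 - F))) :=
          hW.cyc_deg X X 0 _ (comp0 hW (comp0 hW hPi h1tθ) (comp0 hW hPi hPi))
        rw [h5, ← pj_comm0 h7, h4, mul_zero]
  have hne : ∀ i, i ≠ d → W.pj X i ∈ W.cyc X X 0 := by
    intro i hi
    have h4 : W.pj X i = W.pj X i * (1 - c) := by
      rw [mul_sub, mul_one, pj_comm0 hdegc, hc0 i hi, sub_zero]
    rw [h4]
    exact hgood.2 i
  intro i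
  by_cases hi : i = d
  · subst hi
    have h4 := sum_pj X (2 * i) (fun a => by have := hW.deg_le X a; omega)
    rw [← Finset.add_sum_erase _ _ (show i ∈ Finset.range (2 * i + 1) by simp; omega)] at h4
    have h5 : W.pj X i = 1 - ∑ j ∈ (Finset.range (2 * i + 1)).erase i, W.pj X j := by
      rw [← h4]; abel
    rw [h5]
    exact Submodule.sub_mem _ one_mem
      (Submodule.sum_mem _ fun j hj => hne j (Finset.ne_of_mem_erase hj))
  · exact hne i hi


/-- a correspondence which splits off the classes from the fibres outside `U` -/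
theorem exists_vert (hW : W.Calculus) (hK : Known W D) {𝓕 : Fibrations W} (h𝓕 : 𝓕.Theory D)
    {n : ℕ} {X : W.Var n} {Y : W.Var (n + 1)} (f : 𝓕.Fib X Y) (h3 : 3 ≤ W.dim X)
    {Q : W.Var n → Prop} (hQ : ∀ T, Q T → W.C T) (hsplit : 𝓕.Split f Q) :
    ∃ θ ∈ Good W X, (∀ j, W.dim X ≤ j → θ * W.pj X j = 0) ∧
      ∀ j < W.dim X, ∀ y ∈ 𝓕.vert f, W.InH X j y →
        y - θ *ᵥ y = 0 ∨ (3 ≤ j ∧ y - θ *ᵥ y ∈ 𝓕.gys f) := by
  obtain ⟨θ₂, hθ, hθ1, hθ2, hθ3⟩ := exists_theta hW X (fun v hv h0 => hK.divisors X v hv h0)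
  have hθg : θ₂ ∈ Good W X := good_of_single hW 2 hθ hθ1
  -- one correspondence for each degree
  have hone : ∀ j, ∃ θ ∈ Good W X, W.pj X j * θ = θ ∧ (W.dim X ≤ j → θ = 0) ∧
      (j < W.dim X → ∀ y ∈ 𝓕.vert f, W.InH X j y →
        y - θ *ᵥ y = 0 ∨ (3 ≤ j ∧ y - θ *ᵥ y ∈ 𝓕.gys f)) := by
    intro j
    have gen : ∀ P : W.Var n → Prop, (∀ T, P T → W.C T) → ∀ θ' ∈ Through W P X, 3 ≤ j →
        (∀ v ∈ 𝓕.vert f, W.InH X j v → v - W.ap θ' v ∈ 𝓕.gys f) →
        ∃ θ ∈ Good W X, W.pj X j * θ = θ ∧ (W.dim X ≤ j → θ = 0) ∧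
        (j < W.dim X → ∀ y ∈ 𝓕.vert f, W.InH X j y →
          y - θ *ᵥ y = 0 ∨ (3 ≤ j ∧ y - θ *ᵥ y ∈ 𝓕.gys f)) := by
      intro P hP θ' hT h3j hv
      by_cases hj : W.dim X ≤ j
      · exact ⟨0, Submodule.zero_mem _, by rw [mul_zero], fun _ => rfl, fun h => absurd h (by omega)⟩
      have hTg : θ' ∈ Good W X := through_good hW hP X hT
      have hTdeg : W.HasDeg 0 θ' := hW.cyc_deg X X 0 _ hTg.1
      have hidem : W.pj X j * (W.pj X j * θ') = W.pj X j * θ' := by
        rw [← mul_assoc, pj_mul_pj, if_pos rfl]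
      refine ⟨W.pj X j * θ', good_of_single hW j (hTg.2 j) hidem, hidem,
        fun h => absurd h hj, fun _ y hy hy1 => Or.inr ⟨h3j, ?_⟩⟩
      rw [pj_comm0 hTdeg j, ← Matrix.mulVec_mulVec, pj_mulVec _ _ hy1]
      exact hv y hy hy1
    have triv : W.dim X ≤ j ∨ j ≤ 1 → ∃ θ ∈ Good W X, W.pj X j * θ = θ ∧ (W.dim X ≤ j → θ = 0) ∧
        (j < W.dim X → ∀ y ∈ 𝓕.vert f, W.InH X j y →
          y - θ *ᵥ y = 0 ∨ (3 ≤ j ∧ y - θ *ᵥ y ∈ 𝓕.gys f)) := by
      intro h
      refine ⟨0, Submodule.zero_mem _, by rw [mul_zero], fun _ => rfl, fun hj y hy hy1 =>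
        Or.inl ?_⟩
      have h0 : y = 0 := h𝓕.vert_low f y hy j (by omega) hy1
      rw [h0, Matrix.mulVec_zero, sub_zero]
    by_cases h1 : W.dim X ≤ j ∨ j ≤ 1
    · exact triv h1
    · by_cases h2 : j = 2
      · subst h2
        refine ⟨θ₂, hθg, hθ1, fun h => absurd h (by omega), fun _ y hy hy1 => Or.inl ?_⟩
        rw [hθ3 y (h𝓕.vert_two f y hy hy1), sub_self]
      · by_cases hj3 : j = 3
        · subst hj3
          obtain ⟨θ', hT, hv⟩ := h𝓕.vert_three f (by omega)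
          exact gen _ (fun S hS => hK.surfaces S (le_trans hS (by norm_num))) θ' hT le_rfl hv
        · obtain ⟨θ', hT, hv⟩ := hsplit j (by omega) (by omega)
          exact gen Q hQ θ' hT (by omega) hv
  choose θ hθg' hpθ hzero hmain using hone
  refine ⟨∑ j ∈ Finset.range (W.dim X), θ j, Submodule.sum_mem _ fun j _ => hθg' j, ?_, ?_⟩
  · intro j hj
    rw [Finset.sum_mul]
    refine Finset.sum_eq_zero fun i hi => ?_
    have hi' := Finset.mem_range.1 hi
    rw [← hpθ i, pj_comm0 (hW.cyc_deg X X 0 _ (hθg' i).1), mul_assoc, pj_mul_pj,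
      if_neg (by omega), mul_zero]
  · intro j hj y hy hy1
    have hsum : (∑ i ∈ Finset.range (W.dim X), θ i) *ᵥ y = θ j *ᵥ y := by
      rw [Matrix.sum_mulVec, Finset.sum_eq_single j]
      · intro i _ hi
        rw [← hpθ i, pj_comm0 (hW.cyc_deg X X 0 _ (hθg' i).1), ← Matrix.mulVec_mulVec]
        have : W.pj X i *ᵥ y = 0 := by
          rw [← pj_mulVec j y hy1, Matrix.mulVec_mulVec, pj_mul_pj, if_neg hi, Matrix.zero_mulVec]
        rw [this, Matrix.mulVec_zero]
      · intro h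
        exact absurd (Finset.mem_range.2 hj) h
    rw [hsum]
    exact hmain j hj y hy hy1

/-- **The Künneth projectors of a variety fibred over a curve.** -/
theorem C_of_fibration (hW : W.Calculus) (hK : Known W D) {𝓕 : Fibrations W}
    (h𝓕 : 𝓕.Theory D) {n : ℕ} {X : W.Var n} {Y : W.Var (n + 1)} (f : 𝓕.Fib X Y)
    {Q : W.Var n → Prop} (hQ : ∀ T, Q T → W.C T) (hsplit : 𝓕.Split f Q)
    {P : W.Var (n + 1) → Prop} (hPm : ∀ S, P S → 𝓕.Models S)
    (hPC : ∀ S, P S → ∀ Z, Nonempty (𝓕.Fib Z S) → W.C Z) {e : W.Hom Y Y}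
    (he : e ∈ Through W P Y) (hte : D.t Y e = e) (hcomm : ∀ g ∈ 𝓕.mon f, W.comp g e = W.comp e g)
    (hepj : ∀ i, i ≠ W.dim Y → W.comp e (W.pj Y i) = W.pj Y i)
    (hfix : ∀ y, W.InH Y (W.dim Y) y → (∀ g ∈ 𝓕.mon f, W.ap g y = y) → W.ap e y = y) :
    W.C X := by
  rcases Nat.lt_or_ge (W.dim X) 3 with h3 | h3
  · exact hK.surfaces X (by omega)
  obtain ⟨F, hF, hG⟩ := h𝓕.spread f P hPm e he hcomm
  have hFg : F ∈ Good W X := through_good hW (fun Z hZ => by
    obtain ⟨S, hS, hZS⟩ := hZ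
    exact hPC S hS Z hZS) X hF
  have h1F := hG F e (Or.inl ⟨rfl, rfl⟩)
  have h2F := hG (D.t X F) e (Or.inr ⟨rfl, hte.symm⟩)
  obtain ⟨θ, hθg, hhigh, hvert⟩ := exists_vert hW hK h𝓕 f h3 hQ hsplit
  have hdim := h𝓕.dim_eq f
  have hdegθ : W.HasDeg 0 θ := hW.cyc_deg X X 0 _ hθg.1
  have key : ∀ G : W.Hom X X, G ∈ W.cyc X X 0 →
      (W.comp (𝓕.res f) G = W.comp e (𝓕.res f) ∧
        ∀ (c : K) (i : ℕ), W.comp e (W.pj Y i) = c • W.pj Y i →
          (∀ x, W.InH X (i + 1) x → W.ap (𝓕.res f) x = 0 → W.ap G x - c • x ∈ 𝓕.vert f) ∧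
          ∀ x, W.InH X (i + 2) x → x ∈ 𝓕.gys f → W.ap G x = c • x) →
      ∀ j < W.dim X, (1 - G) * (1 - θ) * ((1 - G) * (1 - G)) * W.pj X j = 0 := by
    rintro G hG0 ⟨hr, hL⟩ j hj
    have hdeg : W.HasDeg 0 G := hW.cyc_deg X X 0 G hG0
    have hsub : ∀ {A : W.Hom X X} {j : ℕ} {x : W.H X}, W.HasDeg 0 A → W.InH X j x →
        W.InH X j (x - A *ᵥ x) := by
      intro A j x hA hx a ha
      rw [Pi.sub_apply] at ha
      by_cases h : x a = 0
      · exact inH_mulVec hA hx a (by rw [h, zero_sub, neg_ne_zero] at ha; exact ha)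
      · exact hx a h
    have hres : ∀ x, W.InH X j x → 𝓕.res f *ᵥ (x - G *ᵥ x) = 0 := by
      intro x hx
      have h4 : 𝓕.res f * G = e * 𝓕.res f := hr
      rw [Matrix.mulVec_sub, Matrix.mulVec_mulVec, h4, ← Matrix.mulVec_mulVec]
      have h6 : W.InH Y j (𝓕.res f *ᵥ x) := inH_mulVec (h𝓕.res_deg f) hx
      by_cases hj3 : j = W.dim Y
      · subst hj3
        have h7 : ∀ g ∈ 𝓕.mon f, W.ap g (𝓕.res f *ᵥ x) = 𝓕.res f *ᵥ x := by
          intro g hg
          have h8 : g * 𝓕.res f = 𝓕.res f := h𝓕.fixed f g hg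
          show g *ᵥ (𝓕.res f *ᵥ x) = _
          rw [Matrix.mulVec_mulVec, h8]
        have h8 : e *ᵥ (𝓕.res f *ᵥ x) = 𝓕.res f *ᵥ x := hfix _ h6 h7
        rw [h8, sub_self]
      · have h7 : e *ᵥ (𝓕.res f *ᵥ x) = 𝓕.res f *ᵥ x := by
          conv_lhs => rw [← pj_mulVec j _ h6, Matrix.mulVec_mulVec]
          have := hepj j hj3
          rw [show e * W.pj Y j = W.pj Y j from this, pj_mulVec j _ h6]
        rw [h7, sub_self]
    have hler : ∀ (i : ℕ) (x : W.H X), i ≠ W.dim Y → W.InH X (i + 1) x → 𝓕.res f *ᵥ x = 0 →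
        x - G *ᵥ x ∈ 𝓕.vert f := by
      intro i x hi hx hx0
      have h4 := (hL 1 i (by rw [one_smul]; exact hepj i hi)).1 x hx hx0
      have h5 : x - G *ᵥ x = -(W.ap G x - (1 : K) • x) := by
        rw [one_smul]
        show x - G *ᵥ x = -(G *ᵥ x - x)
        abel
      rw [h5]
      exact (𝓕.vert f).neg_mem h4
    apply mul_pj_eq_zero
    intro x hx
    rw [← Matrix.mulVec_mulVec, ← Matrix.mulVec_mulVec, ← Matrix.mulVec_mulVec,
      Matrix.sub_mulVec 1 G x, Matrix.one_mulVec]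
    obtain ⟨z, hz⟩ : ∃ z, z = x - G *ᵥ x := ⟨_, rfl⟩
    rw [← hz]
    have hz1 : W.InH X j z := by rw [hz]; exact hsub hdeg hx
    have hz0 : 𝓕.res f *ᵥ z = 0 := by rw [hz]; exact hres x hx
    rw [Matrix.sub_mulVec 1 G z, Matrix.one_mulVec]
    obtain ⟨y, hy⟩ : ∃ y, y = z - G *ᵥ z := ⟨_, rfl⟩
    rw [← hy, Matrix.sub_mulVec 1 θ y, Matrix.one_mulVec]
    have hy1 : W.InH X j y := by rw [hy]; exact hsub hdeg hz1
    rcases Nat.eq_zero_or_pos j with h0 | h0
    · subst h0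
      have h6 : z = 0 := h𝓕.res_zero f _ hz1 hz0
      rw [hy, h6, Matrix.mulVec_zero, sub_zero, Matrix.mulVec_zero, sub_zero, Matrix.mulVec_zero]
    · obtain ⟨i, rfl⟩ : ∃ i, j = i + 1 := ⟨j - 1, by omega⟩
      have hyv : y ∈ 𝓕.vert f := by rw [hy]; exact hler i z (by omega) hz1 hz0
      rcases hvert (i + 1) hj y hyv hy1 with h8 | ⟨h8, h9⟩
      · rw [h8, Matrix.mulVec_zero]
      · obtain ⟨k, rfl⟩ : ∃ k, i = k + 1 := ⟨i - 1, by omega⟩
        have h10 : W.InH X (k + 2) (y - θ *ᵥ y) := hsub hdegθ hy1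
        have h11 := (hL 1 k (by rw [one_smul]; exact hepj k (by omega))).2 _ h10 h9
        rw [one_smul] at h11
        have h12 : G *ᵥ (y - θ *ᵥ y) = y - θ *ᵥ y := h11
        rw [Matrix.sub_mulVec 1 G, Matrix.one_mulVec, h12, sub_self]
  exact C_of_core hW D rfl hFg hθg hhigh (key F hFg.1 h1F) (key (D.t X F) (D.mem X 0 F hFg.1) h2F)

/-- **The Künneth projectors of a threefold fibred over a curve**, if the fixed classes are
algebraic. -/
theorem C_of_fixed (hW : W.Calculus) (hK : Known W D) {𝓕 : Fibrations W} (h𝓕 : 𝓕.Theory D)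
    {n : ℕ} {X : W.Var n} {Y : W.Var (n + 1)} (f : 𝓕.Fib X Y) (hX : W.dim X = 3)
    (hfix : ∀ y, W.InH Y 2 y → (∀ g ∈ 𝓕.mon f, W.ap g y = y) →
      y ∈ Submodule.span K (W.alg Y 1 : Set (W.H Y))) : W.C X := by
  have hY : W.dim Y = 2 := by have := h𝓕.dim_eq f; omega
  obtain ⟨e, he, hte, hepj, healg, heN⟩ := hK.murre Y hY
  have hcomm : ∀ g ∈ 𝓕.mon f, W.comp g e = W.comp e g := fun g hg =>
    murre_comm hte hepj healg heN (h𝓕.mon_deg f g hg) (h𝓕.mon_dual f g hg)
      (fun v hv => h𝓕.mon_alg f g hg 1 v hv)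
  refine C_of_fibration hW hK h𝓕 f (Q := fun _ => False) (fun _ h => h.elim)
    (fun j h4 hj => absurd hj (by omega)) (P := fun T => W.dim T ≤ 1)
    (fun S hS => h𝓕.models S (le_trans hS (by norm_num))) ?_ he hte hcomm
    (by rw [hY]; exact hepj) ?_
  · rintro S hS Z ⟨g⟩
    have := h𝓕.dim_eq g
    exact hK.surfaces Z (by omega)
  · intro y hy hy2
    rw [hY] at hy
    have h3 : ∀ v ∈ Submodule.span K (W.alg Y 1 : Set (W.H Y)), e *ᵥ v = v := by
      intro v hv
      induction hv using Submodule.span_induction with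
      | mem x hx => exact healg x hx
      | zero => rw [Matrix.mulVec_zero]
      | add x y _ _ h1 h2 => rw [Matrix.mulVec_add, h1, h2]
      | smul c x _ h1 => rw [Matrix.mulVec_smul, h1]
    exact h3 y (hfix y hy hy2)

/-- the Künneth projectors of a variety which is dominated by a variety with algebraic Künneth
projectors -/
theorem C_of_dominates (hW : W.Calculus) {n : ℕ} {X' X : W.Var n} (h : Dominates W X' X)
    (hC : W.C X') : W.C X := by
  obtain ⟨a, ha, b, hb, N, hN, hab⟩ := h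
  intro i
  have h1 : a * W.pj X' i * b ∈ W.cyc X X 0 := by
    have h2 := hW.comp_mem X' X' X 0 0 (W.pj X' i) (hC i) a ha
    have h3 := hW.comp_mem X X' X 0 (0 + 0) b hb _ h2
    rw [add_zero, add_zero] at h3
    exact h3
  have h2 : a * W.pj X' i * b = (N : ℚ) • W.pj X i := by
    rw [← pj_comm (hW.cyc_deg X' X 0 a ha) i i (by ring), Matrix.mul_assoc]
    have h3 : a * b = ((N : ℚ) : K) • (1 : W.Hom X X) := hab
    rw [h3, Matrix.mul_smul, mul_one]
    ext x y
    simp [Rat.smul_def]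
  have h3 : W.pj X i = (N : ℚ)⁻¹ • (a * W.pj X' i * b) := by
    rw [h2, smul_smul, inv_mul_cancel₀ (by exact_mod_cast hN.ne'), one_smul]
  rw [h3]
  exact Submodule.smul_mem _ _ h1

end main

end Pool.Agent.H64.FT
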