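import Pool.Agent.H64.CC.Weil

/-!
# Surfaces with a simple part of small slope: definitions
-/

set_option autoImplicit false

namespace Pool.Agent.H64.FT

open Pool.Agent.H64.CC

variable {K : Type} [Field K] [CharZero K]

/-- the `K`-linear combinations of the classes of divisors on `Y` -/
def NS (W : Weil K) {m : ℕ} (Y : W.Var m) : Submodule K (W.H Y) :=
  Submodule.span K (W.alg Y 1 : Set (W.H Y))

/-- the subspace `S` of `H(Y)` is stable under the endomorphisms in `mon` -/
def Stable (W : Weil K) {m : ℕ} {Y : W.Var m} (mon : Set (W.Hom Y Y)) (S : Submodule K (W.H Y)) :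
    Prop := ∀ g ∈ mon, ∀ z ∈ S, W.ap g z ∈ S

/-- the class `z` is fixed by the endomorphisms in `mon` -/
def Fixed (W : Weil K) {m : ℕ} {Y : W.Var m} (mon : Set (W.Hom Y Y)) (z : W.H Y) : Prop :=
  ∀ g ∈ mon, W.ap g z = z

/-- Let `W` be crystalline cohomology and `Y` the geometric generic fibre of a family of surfaces
over a curve, with the monodromy group `mon` (of the overconvergent isocrystal `H²(Y)`):

* `T` is the transcendental part of `H²(Y)`, the orthogonal complement of the classes of divisors;
* `low` is the part of `T` of slope less than `1`;
* `M` is the part of `T` fixed by `mon`, and `M'` is the orthogonal complement of `M` in `T` -/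
structure Parts (W : Weil K) {m : ℕ} (Y : W.Var m) where
  T : Submodule K (W.H Y)
  low : Submodule K (W.H Y)
  M : Submodule K (W.H Y)
  M' : Submodule K (W.H Y)

/-- `H²(Y)` is the direct sum of the part generated by the classes of divisors and of `T`, and the
monodromy group preserves both; `M` is the part of `T` which is fixed by it, and `T = M + M'` -/
structure Parts.Splitting {W : Weil K} {m : ℕ} {Y : W.Var m} (P : Parts W Y)
    (mon : Set (W.Hom Y Y)) : Prop where
  split : ∀ y, W.InH Y 2 y → y ∈ NS W Y ⊔ P.T
  disjoint : ∀ z ∈ P.T, z ∈ NS W Y → z = 0
  stable : Stable W mon P.T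
  stable_alg : Stable W mon (NS W Y)
  fixed : ∀ z, z ∈ P.M ↔ z ∈ P.T ∧ Fixed W mon z
  sum : P.T ≤ P.M ⊔ P.M'

/-- The Tate conjecture for divisors is known for the surface `Y` and the part of slope less than `1`
of `H²(Y)` is simple. The subspaces `M` and `M'` of `T` are overconvergent `F`-isocrystals over a
curve over a finitely generated field, and `T = M ⊕ M'`.

* `simple`: `low` is contained in `M` or in `M'`. This is so if `low` is a simple isocrystal, for
  example if `Y` is an abelian surface or a `K3` surface: `low` is `0` or the Dieudonné module of the
  formal Brauer group, which is of dimension `1`;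
* `tate`, `tate'`: if `low` is contained in `M'` (or in `M`), then the slopes of `M` (or of `M'`) are
  at least `1`, and by duality they are equal to `1`. The characteristic polynomials of Frobenius on
  `M` at the closed points have rational coefficients, as they agree with those for the `ℓ`-adic
  cohomology (Deligne, Abe). So the eigenvalues of Frobenius on `M(1)` are roots of unity, and
  `M = 0` by the Tate conjecture;
* `moves`: the monodromy group acts on `T` non-trivially. -/
structure Parts.Slopes {W : Weil K} {m : ℕ} {Y : W.Var m} (P : Parts W Y)
    (mon : Set (W.Hom Y Y)) : Prop where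
  simple : P.low ≤ P.M ∨ P.low ≤ P.M'
  tate : P.low ≤ P.M' → P.M = ⊥
  tate' : P.low ≤ P.M → P.M' = ⊥
  moves : ∃ z ∈ P.T, ¬ Fixed W mon z

/-- The surface `Y` is the geometric generic fibre of a family over a curve, with the monodromy group
`mon`, which acts non-trivially on the transcendental part of the crystalline cohomology `H²(Y)`, the
Tate conjecture for divisors is known for `Y`, and the part of slope less than `1` of `H²(Y)` is
simple -/
def SlopeSurface (W : Weil K) {m : ℕ} (Y : W.Var m) (mon : Set (W.Hom Y Y)) : Prop :=
  ∃ P : Parts W Y, P.Splitting mon ∧ P.Slopes mon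

end Pool.Agent.H64.FT
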