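import Pool.Agent.H64.FT.Defs
import Pool.Agent.H64.FT.SlopeDefs
import Pool.Agent.H16.FT.KeyDefs
import Pool.Agent.H90.FT.TransferDefs

/-!
# Threefolds: the cases
-/

set_option autoImplicit false

namespace Pool.Agent.H64.FT

open Pool.Agent.H64.CC

variable {K K' : Type} [Field K] [CharZero K] [Field K'] [CharZero K']

/-- The cohomology group `Hⁱ(X)` is zero -/
def Vanishes (W : Weil K) {n : ℕ} (X : W.Var n) (i : ℕ) : Prop := ∀ v, W.InH X i v → v = 0

/-- `H²(X)` is generated by the classes of divisors: `ρ(X) = b₂(X)`. For example this is so if `X`
is a Calabi-Yau threefold which can be lifted to characteristic `0` -/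
def AllDivisors (W : Weil K) {n : ℕ} (X : W.Var n) : Prop := ∀ v, W.InH X 2 v → v ∈ NS W X

/-- `X` is dominated, by a rational map, by the product of two varieties of dimension at most `2` -/
def SplitDominated (W : Weil K) {n : ℕ} (X : W.Var n) : Prop :=
  ∃ A B : W.Var n, W.dim A ≤ 2 ∧ W.dim B ≤ 2 ∧ RatDominates W (W.prod A B) X

/-- `X` has a fibration over a curve, with geometric generic fibre `Y`, and the classes in `H²(Y)`
which are fixed by the monodromy group are combinations of classes of divisors -/
def Invariant {W : Weil K} (𝓕 : Fibrations W) {n : ℕ} (X : W.Var n) : Prop :=
  ∃ (Y : W.Var (n + 1)) (f : 𝓕.Fib X Y), ∀ y, W.InH Y 2 y → Fixed W (𝓕.mon f) y → y ∈ NS W Y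

/-- `X` has a fibration over a curve whose geometric generic fibre `Y` is a surface as in
`SlopeSurface` -/
def Slope {W : Weil K} (𝓕 : Fibrations W) {n : ℕ} (X : W.Var n) : Prop :=
  ∃ (Y : W.Var (n + 1)) (f : 𝓕.Fib X Y), W.dim Y = 2 ∧ SlopeSurface W Y (𝓕.mon f)

/-- `X` is a smooth model of a fibre product of two surfaces fibred over a curve `C`, with the generic
fibres `S₁` and `S₂`, where `H¹(S₁)` degenerates: `X` has a fibration `f` over `C` with geometric
generic fibre `S₁ × S₂`, and the monodromy group of `f` contains the image of the group `P.π` -/
def FibreProduct {W : Weil K} (𝓕 : Fibrations W) {n : ℕ} (X : W.Var n) : Prop :=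
  ∃ (S₁ S₂ : W.Var (n + 1)) (f : 𝓕.Fib X (W.prod S₁ S₂)) (P : H16.FT.CurvePair W S₁ S₂),
    P.Degenerates ∧ Nonempty P.Class ∧ ∀ g ∈ P.π, W.ext (P.ρ₁ g) (P.ρ₂ g) ∈ 𝓕.mon f

/-- The classification of curves and surfaces, for the `ℓ`-adic cohomology `W` and the crystalline
cohomology `W'` with their fibrations over curves:

* `kod X`: the Kodaira dimension of `X`; `Abelian A`: `A` is an abelian variety; `kleiman`: the
  Künneth projectors of abelian varieties are algebraic;
* `LowGenus X`: `X` is covered by an algebraic family of curves of geometric genus at most `1`. For
  example `X` is uniruled, or it has a dominant rational map to a variety of dimension `dim X - 1`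
  with fibres of geometric genus `1`;
* `cover`: if `X` is a threefold, two-dimensional subfamilies suffice, and so `X` is dominated by a
  threefold with a map to a surface `Z` whose generic fibre is a smooth curve of genus at most `1`
  with a rational point (after a finite base change, which can be inseparable). If the fibres are
  rational, or elliptic with constant `j`-invariant, then it is birational to the product of a curve
  and a surface, after a finite base change. Otherwise let `Z → C` be the Stein factorisation of the
  `j`-invariant. Then it is birational, after a finite base change, to the fibre product of `Z` and of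
  an elliptic fibration over `C` with non-constant `j`-invariant, with the generic fibres `S₂` and
  `S₁`, and `S₁` degenerates at the poles of `j`. The fibre product has a resolution of singularities
  which is an isomorphism over the regular locus (Cossart and Piltant). The theorem of Zarhin and
  Mori on homomorphisms of abelian varieties is included in `CurvePair`;
* `fibred`: let `f : X → C` be a fibration of a threefold over a curve with geometric generic fibre
  `Y` which is not of general type. By the classification of Bombieri and Mumford `Y` is ruled,
  elliptic or quasi-elliptic, a `K3` surface or an abelian surface, up to birational equivalence. A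
  `K3` surface is covered by curves of geometric genus at most `1`, by the theorem of Bogomolov and
  Mumford in characteristic `0`, the lifting theorem of Deligne, and specialisation of the family of
  curves. So `X` is covered by curves of geometric genus at most `1` if `Y` is not an abelian
  surface, and also if `Y` is a supersingular abelian surface. For the other abelian surfaces, if the
  monodromy group acts trivially on the transcendental part `T` of `H²(Y)` then it acts on `H¹(Y)`
  through a finite group, and `X` is dominated by the product of an abelian surface and a curve
  (theorem of Zarhin and Mori); and if it does not, `Y` is as in `SlopeSurface` -/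
structure Classification (W : Weil K) (𝓕 : Fibrations W) (W' : Weil K') (𝓕' : Fibrations W')
    (Φ : H90.FT.Comparison W W') where
  kod : ∀ {n : ℕ}, W.Var n → WithBot ℕ
  Abelian : ∀ {n : ℕ}, W.Var n → Prop
  kleiman : ∀ {n : ℕ} (A : W.Var n), Abelian A → W.C A
  LowGenus : ∀ {n : ℕ}, W.Var n → Prop
  cover : ∀ {n : ℕ} (X : W.Var n), W.dim X = 3 → LowGenus X →
    SplitDominated W X ∨ ∃ X', RatDominates W X' X ∧ W.dim X' = 3 ∧ FibreProduct 𝓕 X'
  fibred : ∀ {n : ℕ} (X : W.Var n) (Y : W.Var (n + 1)), Nonempty (𝓕.Fib X Y) → W.dim Y = 2 →
    kod Y < 2 → LowGenus X ∨ SplitDominated W X ∨ Slope 𝓕' (Φ.var X)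

variable {W : Weil K} {𝓕 : Fibrations W} {W' : Weil K'} {𝓕' : Fibrations W'}
  {Φ : H90.FT.Comparison W W'}

/-- The threefold `X` has a dominant rational map to a curve whose fibres are surfaces which are not
of general type: after a base change a threefold `X'` which dominates `X` has a fibration over a curve
whose geometric generic fibre `Y` is a surface of Kodaira dimension less than `2`. (A threefold with a
dominant rational map to a surface whose fibres are curves which are not of general type is covered
by curves of genus at most `1`) -/
def Classification.Special (T : Classification W 𝓕 W' 𝓕' Φ) {n : ℕ} (X : W.Var n) : Prop :=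
  ∃ (X' : W.Var n) (Y : W.Var (n + 1)), RatDominates W X' X ∧ W.dim X' = 3 ∧
    Nonempty (𝓕.Fib X' Y) ∧ T.kod Y < 2

/-- A consequence of the theory of the Iitaka fibration, in every characteristic. The generic fibre
`F` of the Iitaka fibration of a threefold `X` of Kodaira dimension `1` or `2` is a regular surface
or curve over the function field of the base, of Kodaira dimension `0`. If `F'` is the normalisation
of the reduced geometric generic fibre, then `K_F' + (p - 1) D` is the pull-back of `K_F`, for an
effective divisor `D` (Tate for curves, Tanaka, Patakfalvi and Waldron). So the smooth models of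
`F'` are of Kodaira dimension at most `0`. After a finite base change, which can be inseparable,
normalisation and resolution, it follows that `X` is covered by curves of geometric genus at most
`1`, or that it has a dominant rational map to a curve whose fibres are surfaces which are not of
general type -/
def Classification.Iitaka (T : Classification W 𝓕 W' 𝓕' Φ) : Prop :=
  ∀ {n : ℕ} (X : W.Var n), W.dim X = 3 → T.kod X = 1 ∨ T.kod X = 2 → T.LowGenus X ∨ T.Special X

/-- Consequences of the minimal model program for threefolds, in characteristic `p > 5`. The
threefolds of Kodaira dimension `-∞` are uniruled (Hacon and Xu, Birkar, Xu and Zhang). The geometric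
generic fibre of the Albanese map of a threefold of Kodaira dimension `0`, after Stein factorisation,
is of Kodaira dimension at most `0`, if `H¹(X) ≠ 0` (Zhang) and the Albanese map is not generically
finite; if it is generically finite then `X` is birational to an abelian variety (Hacon, Patakfalvi
and Zhang) -/
def Classification.MinimalModels (T : Classification W 𝓕 W' 𝓕' Φ) : Prop :=
  ∀ {n : ℕ} (X : W.Var n), W.dim X = 3 →
    T.kod X = ⊥ ∨ (T.kod X = 0 ∧ ¬ Vanishes W X 1) →
    T.LowGenus X ∨ T.Special X ∨ ∃ A, T.Abelian A ∧ RatDominates W A X

end Pool.Agent.H64.FT
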