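import Pool.Agent.H64.FT.Cases
import Pool.Agent.H64.FT.Class

/-!
# Threefolds: the Künneth projectors in the different cases
-/

set_option autoImplicit false

open Matrix

namespace Pool.Agent.H64.FT

open Pool.Agent.H64.CC

variable {K : Type} [Field K] [CharZero K] {W : Weil K} {D : Duality W} {𝓕 : Fibrations W}

/-- threefolds whose second cohomology is generated by divisors -/
theorem C_of_allDivisors (hW : W.Calculus) (hK : Known W D) {n : ℕ} {X : W.Var n}
    (hX : W.dim X = 3) (h : AllDivisors W X) : W.C X := by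
  obtain ⟨θ, hθ, -, hθ2, hθ3⟩ := exists_theta hW X (fun v hv h0 => hK.divisors X v hv h0)
  have hpj : θ = W.pj X 2 := by
    have h1 : (θ - 1) * W.pj X 2 = 0 := by
      refine mul_pj_eq_zero (θ - 1) 2 fun x hx => ?_
      rw [Matrix.sub_mulVec, Matrix.one_mulVec, hθ3 x (h x hx), sub_self]
    rw [sub_mul, one_mul, hθ2, sub_eq_zero] at h1
    exact h1
  refine C_of_low hW D hX fun i hi => ?_
  have h3 : i = 0 ∨ i = 1 ∨ i = 2 := by omega
  rcases h3 with rfl | rfl | rfl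
  · exact (hK.low X).1
  · exact (hK.low X).2
  · rw [← hpj]
    exact hθ

theorem C_of_split (hW : W.Calculus) (hP : W.Products) (hK : Known W D) {n : ℕ} {X : W.Var n}
    (hX : W.dim X = 3) (h : SplitDominated W X) : W.C X := by
  obtain ⟨A, B, hA, hB, hdom⟩ := h
  exact C_of_rat hW hK (by omega) hdom (C_prod hP (hK.surfaces A hA) (hK.surfaces B hB))

theorem C_of_invariant (hW : W.Calculus) (hK : Known W D) (h𝓕 : 𝓕.Theory D) {n : ℕ} {X : W.Var n}
    (hX : W.dim X = 3) (h : Invariant 𝓕 X) : W.C X := by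
  obtain ⟨Y, f, hfix⟩ := h
  exact C_of_fixed hW hK h𝓕 f hX hfix

theorem C_of_slope (hW : W.Calculus) (hK : Known W D) (h𝓕 : 𝓕.Theory D) {n : ℕ} {X : W.Var n}
    (h : Slope 𝓕 X) : W.C X := by
  obtain ⟨Y, f, hY, P⟩ := h
  have h1 := h𝓕.dim_eq f
  exact C_of_fixed hW hK h𝓕 f (by omega) fun _ hy hfix => P.fixed_alg hy hfix

theorem C_of_fibreProduct (hW : W.Calculus) (hK : Known W D) (h𝓕 : 𝓕.Theory D)
    {n : ℕ} {X : W.Var n} (hX : W.dim X = 3) (h : FibreProduct 𝓕 X) : W.C X := by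
  obtain ⟨S₁, S₂, f, P, hdeg, ⟨Cl⟩, hmon⟩ := h
  exact C_of_fixed hW hK h𝓕 f hX fun y hy hfix =>
    H16.FT.fixed_prod P hdeg Cl hy fun g hg => hfix _ (hmon g hg)

section classification

variable {K' : Type} [Field K'] [CharZero K'] {W' : Weil K'} {𝓕' : Fibrations W'}
  {Φ : H90.FT.Comparison W W'} {D' : Duality W'}

theorem C_of_lowGenus (hW : W.Calculus) (hP : W.Products) (hK : Known W D) (h𝓕 : 𝓕.Theory D)
    (T : Classification W 𝓕 W' 𝓕' Φ) {n : ℕ} {X : W.Var n} (hX : W.dim X = 3)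
    (h : T.LowGenus X) : W.C X := by
  rcases T.cover X hX h with h | ⟨X', hdom, hX', h⟩
  · exact C_of_split hW hP hK hX h
  · exact C_of_rat hW hK (by omega) hdom (C_of_fibreProduct hW hK h𝓕 hX' h)

theorem C_of_special (hW : W.Calculus) (hP : W.Products) (hK : Known W D) (h𝓕 : 𝓕.Theory D)
    (hW' : W'.Calculus) (hK' : Known W' D') (h𝓕' : 𝓕'.Theory D')
    (T : Classification W 𝓕 W' 𝓕' Φ) {n : ℕ} {X : W.Var n} (hX : W.dim X = 3)
    (h : T.Special X) : W.C X := by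
  obtain ⟨X', Y, hdom, hX', ⟨f⟩, hY⟩ := h
  refine C_of_rat hW hK (by omega) hdom ?_
  have hdim := h𝓕.dim_eq f
  rcases T.fibred X' Y ⟨f⟩ (by omega) hY with h1 | h1 | h1
  · exact C_of_lowGenus hW hP hK h𝓕 T hX' h1
  · exact C_of_split hW hP hK hX' h1
  · exact (H90.FT.transfer_C Φ hW hW' X').2 (C_of_slope hW' hK' h𝓕' h1)

theorem C_of_kod (hW : W.Calculus) (hP : W.Products) (hK : Known W D) (h𝓕 : 𝓕.Theory D)
    (hW' : W'.Calculus) (hK' : Known W' D') (h𝓕' : 𝓕'.Theory D')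
    (T : Classification W 𝓕 W' 𝓕' Φ) (hI : T.Iitaka) (hM : T.MinimalModels) {n : ℕ}
    {X : W.Var n} (hX : W.dim X = 3) (h3 : T.kod X < 3)
    (h0 : ¬ (T.kod X = 0 ∧ Vanishes W X 1 ∧ ¬ AllDivisors W X)) : W.C X := by
  by_cases hA : AllDivisors W X
  · exact C_of_allDivisors hW hK hX hA
  have hk : (T.kod X = 1 ∨ T.kod X = 2) ∨ T.kod X = ⊥ ∨ (T.kod X = 0 ∧ ¬ Vanishes W X 1) := by
    have hn : T.kod X = 0 → ¬ Vanishes W X 1 := fun h1 h2 => h0 ⟨h1, h2, hA⟩
    generalize T.kod X = k at *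
    induction k using WithBot.recBotCoe with
    | bot => exact Or.inr (Or.inl rfl)
    | coe k =>
      have h4 : k < 3 := by
        have h5 : ((3 : ℕ) : WithBot ℕ) = 3 := rfl
        rw [← h5] at h3
        exact WithBot.coe_lt_coe.1 h3
      have h5 : k = 0 ∨ k = 1 ∨ k = 2 := by omega
      rcases h5 with rfl | rfl | rfl
      · exact Or.inr (Or.inr ⟨rfl, hn rfl⟩)
      · exact Or.inl (Or.inl rfl)
      · exact Or.inl (Or.inr rfl)
  have h1 : T.LowGenus X ∨ T.Special X ∨ ∃ A, T.Abelian A ∧ RatDominates W A X := by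
    rcases hk with hk | hk
    · rcases hI X hX hk with h | h
      · exact Or.inl h
      · exact Or.inr (Or.inl h)
    · exact hM X hX hk
  rcases h1 with h1 | h1 | ⟨A, hA, h1⟩
  · exact C_of_lowGenus hW hP hK h𝓕 T hX h1
  · exact C_of_special hW hP hK h𝓕 hW' hK' h𝓕' T hX h1
  · exact C_of_rat hW hK (by omega) h1 (T.kleiman A hA)

end classification

end Pool.Agent.H64.FT
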