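import Pool.Agent.H64.FT.Main

/-!
# Products
-/

set_option autoImplicit false

open Matrix

namespace Pool.Agent.H64.FT

open Pool.Agent.H64.CC

variable {K : Type} [Field K] [CharZero K] {W : Weil K}

/-- the Künneth projectors of a product -/
theorem pj_prod (hP : W.Products) {n : ℕ} (X Y : W.Var n) (i : ℕ) :
    W.pj (W.prod X Y) i = ∑ a ∈ Finset.range (i + 1), W.ext (W.pj X a) (W.pj Y (i - a)) := by
  ext u v
  obtain ⟨⟨u1, u2⟩, rfl⟩ := (W.pr X Y).surjective u
  obtain ⟨⟨v1, v2⟩, rfl⟩ := (W.pr X Y).surjective v
  rw [Matrix.sum_apply, pj_apply, hP.deg_prod]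
  simp only [Weil.ext, Matrix.of_apply, Equiv.symm_apply_apply, pj_apply, EmbeddingLike.apply_eq_iff_eq,
    Prod.mk.injEq]
  by_cases h1 : u1 = v1
  · by_cases h2 : u2 = v2
    · subst h1 h2
      simp only [and_self, if_true]
      by_cases h3 : W.deg X u1 ≤ i
      · rw [Finset.sum_eq_single (W.deg X u1)]
        · simp only [if_true, one_mul]
          by_cases h4 : W.deg X u1 + W.deg Y u2 = i
          · rw [if_pos h4, if_pos (by omega)]
          · rw [if_neg h4, if_neg (by omega)]
        · intro a _ ha
          rw [if_neg (Ne.symm ha), zero_mul]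
        · intro h
          exact absurd (Finset.mem_range.2 (by omega)) h
      · rw [if_neg (by omega)]
        symm
        refine Finset.sum_eq_zero fun a ha => ?_
        have := Finset.mem_range.1 ha
        rw [if_neg (by omega), zero_mul]
    · simp [h1, h2]
  · simp [h1]

/-- the Künneth projectors of a product of varieties with algebraic Künneth projectors are
algebraic -/
theorem C_prod (hP : W.Products) {n : ℕ} {X Y : W.Var n} (hX : W.C X) (hY : W.C Y) :
    W.C (W.prod X Y) := by
  intro i
  rw [pj_prod hP]
  refine Submodule.sum_mem _ fun a _ => ?_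
  have := hP.ext_mem X X Y Y 0 0 _ (hX a) _ (hY (i - a))
  rwa [add_zero] at this

end Pool.Agent.H64.FT
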