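import Pool.Agent.H64.FT.Class

set_option autoImplicit false

/-!
# The Künneth conjecture for varieties fibred over a curve
-/

namespace Pool.Agent.Results.MP_fd35e1_ag.FibredVarieties

open Pool.Agent.H64.CC Pool.Agent.H64.FT Pool.Agent.H16.FT Pool.Agent.H90.FT

/-- Let `W` be a Weil cohomology for the smooth projective connected varieties over the fields
`F 0 ⊂ F 1 ⊂ …`, where `F n` is the algebraic closure of the field of rational functions in `n`
variables over the prime field of characteristic `p`, with Poincaré duality `D`, for which the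
theorems of Kleiman, Matsusaka and Murre hold (`Known`), and let `𝓕` be the fibrations over curves.
Let `Covered D 𝓕` be the smallest class of varieties which contains the varieties of dimension at
most `2`, is closed under products and under images by generically finite morphisms (and by dominant
rational maps in the dimensions at most `4`), and contains every variety with a fibration over a
curve which satisfies the criterion `fib`.

(a) For the varieties `X` of the class all Künneth projectors are algebraic, and so the sign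
conjecture `C⁺(X)` holds. The same is true for every Weil cohomology `W'` which can be compared with
`W`, for example for the crystalline cohomology, if `W` is the `ℓ`-adic cohomology.

(b) The class contains every threefold with a fibration over a curve, with geometric generic fibre
`Y`, such that the classes in `H²(Y)` fixed by the monodromy group are combinations of classes of
divisors. In particular it contains it in the following cases:

(c) `Y = S₁ × S₂` is a product of curves and `H¹(S₁)` degenerates;

(d) `Y` satisfies the Tate conjecture and has a place of Tate type;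

(e) `Y` satisfies the Tate conjecture, the part of slope less than `1` of `H²(Y)` is simple, and the
fibration is not isotrivial.

(f) The class contains every fourfold with a fibration over a curve with geometric generic fibre
`A × S`, where `A` is a surface and `S` is a curve, as in `SurfaceTimesCurve`, if it contains the
models of `A` and of the surfaces `B × S`. The condition `maximal` of `SurfaceTimesCurve` is
satisfied for `A = E × E`, where `E` is an elliptic curve with non-constant `j`-invariant. -/
theorem result {K K' : Type} [Field K] [CharZero K] [Field K'] [CharZero K'] (W : Weil K)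
    (hW : W.Calculus) (hP : W.Products) (D : Duality W) (hK : Known W D) (𝓕 : Fibrations W)
    (h𝓕 : 𝓕.Theory D) :
    (∀ (n : ℕ) (X : W.Var n), Covered D 𝓕 X → (W.C X ∧ W.Cplus X) ∧
      ∀ (W' : Weil K') (Φ : H90.FT.Comparison W W'), W'.Calculus →
        W'.C (Φ.var X) ∧ W'.Cplus (Φ.var X)) ∧
    (∀ (n : ℕ) (X : W.Var n) (Y : W.Var (n + 1)) (f : 𝓕.Fib X Y), W.dim X = 3 →
      (∀ y, W.InH Y 2 y → (∀ g ∈ 𝓕.mon f, W.ap g y = y) →
        y ∈ Submodule.span K (W.alg Y 1 : Set (W.H Y))) → Covered D 𝓕 X) ∧
    (∀ (n : ℕ) (X : W.Var n) (S₁ S₂ : W.Var (n + 1)) (f : 𝓕.Fib X (W.prod S₁ S₂))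
      (P : CurvePair W S₁ S₂), W.dim X = 3 → P.Degenerates → Nonempty P.Class →
      (∀ g ∈ P.π, W.ext (P.ρ₁ g) (P.ρ₂ g) ∈ 𝓕.mon f) → Covered D 𝓕 X) ∧
    (∀ (n : ℕ) (X : W.Var n) (Y : W.Var (n + 1)) (f : 𝓕.Fib X Y)
      (P : TateSurface (W := W) Y), W.dim X = 3 → (∀ g ∈ P.π, P.ρ g ∈ 𝓕.mon f) →
      Covered D 𝓕 X) ∧
    (∀ (n : ℕ) (X : W.Var n) (Y : W.Var (n + 1)) (f : 𝓕.Fib X Y), W.dim X = 3 →
      Nonempty (SlopeSurface W Y (𝓕.mon f)) → Covered D 𝓕 X) ∧
    (∀ (n : ℕ) (X : W.Var n) (A S : W.Var (n + 1)) (f : 𝓕.Fib X (W.prod A S))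
      (Q : W.Var (n + 1) → Prop), Nonempty (SurfaceTimesCurve W D A S (𝓕.mon f) Q) →
      (∀ T Z, W.dim T = 0 → Nonempty (𝓕.Fib Z (W.prod A T)) → Covered D 𝓕 Z) →
      (∀ B Z, Q B → Nonempty (𝓕.Fib Z (W.prod B S)) → Covered D 𝓕 Z) → Covered D 𝓕 X) ∧
    (∀ (n : ℕ) (E S : W.Var (n + 1)) (M : SurfaceCurve W (W.prod E E) S)
      (ρ : M.π →* W.Hom E E) (c : M.place) (r : W.Hom (W.prod E E) (W.prod E E)),
      (∀ g, M.ρA g = W.ext (ρ g) (ρ g)) → (∀ g, W.HasDeg 0 (ρ g)) →
      Nonempty (Multiplicative E ρ (M.τ c)) →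
      (∀ y, W.InH (W.prod E E) 2 y → W.ap r y ∈ Submodule.span K
        {w | ∃ x, W.InH E 1 x ∧ ∃ x', W.InH E 1 x' ∧ w = tn x x' + tn x' x}) → M.Maximal r) := by
  refine ⟨fun n X hX => ?_, fun n X Y f hX hfix => covered_fixed hK h𝓕 X Y f hX hfix,
    fun n X S₁ S₂ f P hX hd hc hm => covered_curves hK h𝓕 X S₁ S₂ f P hX hd hc hm,
    fun n X Y f P hX hm => covered_tate hK h𝓕 X Y f P hX hm,
    fun n X Y f hX hP' => covered_slope hK h𝓕 X Y f hX hP',
    fun n X A S f Q ⟨N⟩ h1 h2 => covered_four hW hP hK h𝓕 X A S f Q N h1 h2,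
    fun n E S M ρ c r h1 h2 ⟨h3⟩ h4 => maximal_square hP M ρ h1 h2 c h3 h4⟩
  have hC := hX.C hW hP hK h𝓕
  refine ⟨⟨hC, cplus_of_C hW hC⟩, fun W' Φ hW' => ?_⟩
  exact ⟨(transfer_C Φ hW hW' X).1 hC, cplus_of_C hW' ((transfer_C Φ hW hW' X).1 hC)⟩

end Pool.Agent.Results.MP_fd35e1_ag.FibredVarieties
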