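import Pool.Agent.H64.FT.Rat
import Pool.Agent.H64.FT.SlopeDefs

/-!
# Surfaces with a simple part of small slope
-/

set_option autoImplicit false

open Matrix

namespace Pool.Agent.H64.FT

open Pool.Agent.H64.CC

variable {K : Type} [Field K] [CharZero K]

variable {W : Weil K}

/-- the invariant classes are algebraic -/
theorem SlopeSurface.fixed_alg {m : ℕ} {Y : W.Var m} {mon : Set (W.Hom Y Y)}
    (h : SlopeSurface W Y mon) {y : W.H Y} (hy : W.InH Y 2 y)
    (hfix : ∀ g ∈ mon, W.ap g y = y) : y ∈ Submodule.span K (W.alg Y 1 : Set (W.H Y)) := by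
  obtain ⟨P, S, L⟩ := h
  obtain ⟨v, hv, z, hz, rfl⟩ := Submodule.mem_sup.1 (S.split y hy)
  have hzfix : Fixed W mon z := by
    intro g hg
    have h1 := hfix g hg
    simp only [Weil.ap] at h1 ⊢
    rw [Matrix.mulVec_add] at h1
    have h2 : g *ᵥ z - z = v - g *ᵥ v := by
      rw [sub_eq_sub_iff_add_eq_add, add_comm, h1, add_comm]
    have h3 : g *ᵥ z - z = 0 :=
      S.disjoint _ (P.T.sub_mem (S.stable g hg z hz) hz)
        (by rw [h2]; exact Submodule.sub_mem _ hv (S.stable_alg g hg v hv))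
    exact sub_eq_zero.1 h3
  have hzM : z ∈ P.M := (S.fixed z).2 ⟨hz, hzfix⟩
  rcases L.simple with h | h
  · exfalso
    have h1 := L.tate' h
    obtain ⟨w, hw, hne⟩ := L.moves
    have h2 := S.sum hw
    rw [h1, sup_bot_eq] at h2
    exact hne ((S.fixed w).1 h2).2
  · have h1 := L.tate h
    rw [h1, Submodule.mem_bot] at hzM
    rw [hzM, add_zero]
    exact hv

end Pool.Agent.H64.FT
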